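import Mathlib
import Pool.Agent.Helper941.Hyp.Defs

/-!
Project HY (helper562): MP_64713a_lc, frozen statement S14803.
Definitions and exact Lean Props of the parts.
-/

set_option autoImplicit false

namespace Pool.Agent.W562.HY

open Encodable Denumerable Nat.Partrec
open Pool.Agent.Helper941.Hyp (Sigma11 Delta11)

/-! ### structures with three sorts: numbers, reals, classes -/

/-- A structure: `R` is the sort of reals (each real is a function `ℕ → ℕ`), `C` is the sort of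
classes (each class is a relation between numbers and reals). -/
structure Str where
  R : Type
  C : Type
  app : R → ℕ → ℕ
  mem : C → ℕ → R → Prop
  r0 : R
  c0 : C

/-- Formulas with de Bruijn indices, three kinds of variables. `num r` is an arbitrary `Δ¹₁`
(lightface) predicate of the list of the values of the number variables. -/
inductive Fm : Type
  | num (r : List ℕ → Prop) (h : Delta11 r) : Fm
  | app (i j k : ℕ) : Fm
  | mem (i j k : ℕ) : Fm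
  | neg (φ : Fm) : Fm
  | and (φ ψ : Fm) : Fm
  | exN (φ : Fm) : Fm
  | exR (φ : Fm) : Fm
  | exC (φ : Fm) : Fm

/-- Satisfaction. -/
def Fm.eval (S : Str) : Fm → List ℕ → List S.R → List S.C → Prop
  | .num r _, v, _, _ => r v
  | .app i j k, v, w, _ => S.app (w.getD i S.r0) (v.getD j 0) = v.getD k 0
  | .mem i j k, v, w, u => S.mem (u.getD i S.c0) (v.getD j 0) (w.getD k S.r0)
  | .neg φ, v, w, u => ¬ φ.eval S v w u
  | .and φ ψ, v, w, u => φ.eval S v w u ∧ ψ.eval S v w u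
  | .exN φ, v, w, u => ∃ n : ℕ, φ.eval S (n :: v) w u
  | .exR φ, v, w, u => ∃ r : S.R, φ.eval S v (r :: w) u
  | .exC φ, v, w, u => ∃ c : S.C, φ.eval S v w (c :: u)

/-- The (countable) structure coded by the real `z`. -/
def str (z : ℕ → ℕ) : Str where
  R := ℕ
  C := ℕ
  app := fun j n => z (Nat.pair 0 (Nat.pair j n))
  mem := fun c n j => z (Nat.pair 1 (Nat.pair c (Nat.pair n j))) = 1
  r0 := 0
  c0 := 0

/-- The true structure. -/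
def VV : Str where
  R := ℕ → ℕ
  C := Set (ℕ × (ℕ → ℕ))
  app := fun f n => f n
  mem := fun c n f => (n, f) ∈ c
  r0 := fun _ => 0
  c0 := ∅

/-! ### lightface classes of predicates with a real parameter -/

def S11 {α : Type} [Primcodable α] (P : α → (ℕ → ℕ) → Prop) : Prop :=
  ∃ R : α × List ℕ × List ℕ → Prop, ComputablePred R ∧
    ∀ a g, P a g ↔ ∃ f : ℕ → ℕ, ∀ n, R (a, (List.range n).map g, (List.range n).map f)

def D11 {α : Type} [Primcodable α] (P : α → (ℕ → ℕ) → Prop) : Prop :=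
  S11 P ∧ S11 fun a g => ¬ P a g

/-- satisfaction in coded structures is `Δ¹₁` -/
def P_eval : Prop := ∀ φ : Fm,
  D11 fun (a : List ℕ × List ℕ × List ℕ) (z : ℕ → ℕ) => φ.eval (str z) a.1 a.2.1 a.2.2

/-- downward Löwenheim-Skolem -/
def P_ls : Prop := ∀ (S : Str) (φ : Fm), φ.eval S [] [] [] → ∃ z, φ.eval (str z) [] [] []

/-- a real that is not hyperarithmetic is omitted by a model -/
def P_basis : Prop := P_eval → ∀ φ : Fm, (∃ z, φ.eval (str z) [] [] []) →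
  ∀ X : Set ℕ, ¬ Delta11 (fun n => n ∈ X) →
    ∃ z, φ.eval (str z) [] [] [] ∧ ∀ j, ¬ ∀ n, (str z).app j n = 1 ↔ n ∈ X

/-! ### reservoirs and conditions -/

/-- the finite set with code `n` -/
def dF (n : ℕ) : Finset ℕ := (ofNat (List ℕ) n).toFinset

section
variable (S : Str)

/-- the `k`-th block of the reservoir `Y` -/
def blk (Y : S.R) (k : ℕ) : Finset ℕ := dF (S.app Y k)

/-- the set of the indices of nonempty blocks -/
def KK (Y : S.R) : Set ℕ := {k | (blk S Y k).Nonempty}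

def Sub (Z Y : S.R) : Prop := ∀ k, blk S Z k ⊆ blk S Y k

/-- the blocks of `Z` have relative size at least `a / b` in the blocks of `Y` -/
def Big (a b : ℕ) (Z Y : S.R) : Prop := ∀ k ∈ KK S Z, a * (blk S Y k).card ≤ b * (blk S Z k).card

def LeR (Z Y : S.R) : Prop :=
  Sub S Z Y ∧ (KK S Z).Infinite ∧ ∃ a b, 0 < a ∧ Big S a b Z Y

def InU (n : ℕ) (Y : S.R) : Prop := ∃ k, n ∈ blk S Y k

/-- the order of the conditions: `(F', Y') ≤ (F, Y)` -/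
def Le (F' : ℕ) (Y' : S.R) (F : ℕ) (Y : S.R) : Prop :=
  dF F ⊆ dF F' ∧ (∀ n ∈ dF F', n ∈ dF F ∨ InU S n Y) ∧ LeR S Y' Y

/-- the `n`-th section of the class `c` is open -/
def Opn (c : S.C) (n : ℕ) : Prop := ∀ F Y F' Y', Le S F' Y' F Y →
  S.mem c (Nat.pair n F) Y → S.mem c (Nat.pair n F') Y'

/-- no extension of `(F, Y)` belongs to the `n`-th section of `c` -/
def Perp (c : S.C) (n F : ℕ) (Y : S.R) : Prop :=
  ∀ F' Y', Le S F' Y' F Y → ¬ S.mem c (Nat.pair n F') Y'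

/-- the `n`-th section of `c` is dense below `(F, Y)` -/
def DB (c : S.C) (n F : ℕ) (Y : S.R) : Prop :=
  ∀ F' Y', Le S F' Y' F Y → ∃ F'' Y'', Le S F'' Y'' F' Y' ∧ S.mem c (Nat.pair n F'') Y''

def Grow (Y : S.R) : Prop := ∀ k, ∀ n ∈ blk S Y k, k ≤ n

/-- no element below `l` -/
def Dec (Y : S.R) (l : ℕ) : Prop := ∀ k, ∀ n ∈ blk S Y k, l ≤ n

/-! ### the sentences -/

/-- differences of reservoirs -/
def SDiff : Prop := ∀ (Y W : S.R) (a b : ℕ), ∃ Z : S.R, ∀ k,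
  (a * (blk S Y k).card ≤ b * (blk S Y k \ blk S W k).card →
    blk S Z k = blk S Y k \ blk S W k) ∧
  (¬ a * (blk S Y k).card ≤ b * (blk S Y k \ blk S W k).card → blk S Z k = ∅)

/-- the classes are closed under `Perp` -/
def SPerp : Prop := ∀ c : S.C, ∃ c' : S.C, ∀ (n F : ℕ) (Y : S.R),
  S.mem c' (Nat.pair n F) Y ↔ Perp S c n F Y

/-- every computable function is a real -/
def SComp : Prop := ∀ e : ℕ, (∀ n, ∃ m, m ∈ Code.eval (ofNat Code e) n) →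
  ∃ ρ : S.R, ∀ n, S.app ρ n ∈ Code.eval (ofNat Code e) n

/-- finite sequences of pairs of reals are coded by reals -/
def SJoin : Prop := ∀ (V Y J : S.R) (m a b : ℕ), ∃ V' : S.R,
  (∀ i t, i ≠ m → S.app V' (Nat.pair i t) = S.app V (Nat.pair i t)) ∧
  (∀ k, S.app V' (Nat.pair m (Nat.pair 0 k)) = S.app Y k) ∧
  (∀ E, S.app V' (Nat.pair m (Nat.pair 1 E)) = S.app J E) ∧
  S.app V' (Nat.pair m (Nat.pair 2 0)) = Nat.pair a b

/-- components of the sequence coded by `V` -/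
def vY (V : S.R) (i k : ℕ) : Finset ℕ := dF (S.app V (Nat.pair i (Nat.pair 0 k)))
def vJ (V : S.R) (i E : ℕ) : ℕ := S.app V (Nat.pair i (Nat.pair 1 E))
def va (V : S.R) (i : ℕ) : ℕ := (S.app V (Nat.pair i (Nat.pair 2 0))).unpair.1
def vb (V : S.R) (i : ℕ) : ℕ := (S.app V (Nat.pair i (Nat.pair 2 0))).unpair.2

/-- compactness and pigeonhole principle -/
def SCpt : Prop := ∀ (V κ : S.R) (m N0 : ℕ), (KK S κ).Infinite →
  (∀ i < m, 0 < va S V i) →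
  (∀ N : ℕ, ∃ s : ℕ,
    (∀ i < m, ∀ E : ℕ, dF E ⊆ dF s → (∀ x ∈ dF E, ∃ k < N, x ∈ vY S V i k) → vJ S V i E = 1) ∧
    (∀ k < N, N0 ≤ k → k ∈ KK S κ → ∃ i < m, (vY S V i k).Nonempty ∧
      va S V i * (vY S V i k).card ≤ vb S V i * (dF s ∩ vY S V i k).card)) →
  ∃ i < m, ∃ Z : S.R, (∀ k, blk S Z k ⊆ vY S V i k) ∧ (KK S Z).Infinite ∧ KK S Z ⊆ KK S κ ∧
    (∀ k ∈ KK S Z, va S V i * (vY S V i k).card ≤ vb S V i * (blk S Z k).card) ∧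
    ∀ E : ℕ, (∀ x ∈ dF E, InU S x Z) → vJ S V i E = 1

/-- first property of `J`: finite sets outside `J` are witnessed by conditions in the open set -/
def J1 (c : S.C) (n F : ℕ) (Y : S.R) (a b : ℕ) (κ' J : S.R) : Prop :=
  ∀ E : ℕ, (∀ x ∈ dF E, InU S x Y) → S.app J E ≠ 1 →
    ∃ (m k0 : ℕ) (V W : S.R),
      (∀ j < m, ∃ (Y' : S.R) (F' : ℕ), (∀ k, S.app Y' k = S.app V (Nat.pair j k)) ∧
        dF F ⊆ dF F' ∧ dF F' ⊆ dF F ∪ dF E ∧ S.mem c (Nat.pair n F') Y' ∧ LeR S Y' Y ∧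
        ∀ k, k0 ≤ k → k ∈ KK S κ' → k ∈ KK S Y') ∧
      ∀ k, k0 ≤ k → k ∈ KK S κ' → blk S W k ⊆ blk S Y k ∧
        (∀ x ∈ blk S W k, ∃ j < m, x ∈ dF (S.app V (Nat.pair j k))) ∧
        a * (blk S Y k).card ≤ b * (blk S W k).card

/-- second property of `J` -/
def J2 (c : S.C) (n F : ℕ) (Y : S.R) (a b : ℕ) (κ' J : S.R) : Prop :=
  ∀ Z : S.R, Sub S Z Y → (KK S Z ∩ KK S κ').Infinite →
    (∀ k ∈ KK S Z, 2 * a * (blk S Y k).card ≤ b * (blk S Z k).card) →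
    (∀ E : ℕ, (∀ x ∈ dF E, InU S x Z) → S.app J E = 1) →
    ∃ Z' : S.R, Sub S Z' Z ∧ KK S Z' ⊆ KK S κ' ∧
      (∃ k0, ∀ k, k0 ≤ k → k ∈ KK S Z → k ∈ KK S κ' → k ∈ KK S Z') ∧
      (∀ k ∈ KK S Z', a * (blk S Y k).card ≤ b * (blk S Z' k).card) ∧ Perp S c n F Z'

/-- the main combinatorial principle -/
def SJ : Prop := ∀ (c : S.C) (n F : ℕ) (Y κ : S.R) (a b : ℕ), 0 < a → Opn S c n →
  (KK S κ ∩ KK S Y).Infinite →
  ∃ κ' J : S.R, (KK S κ').Infinite ∧ KK S κ' ⊆ KK S κ ∩ KK S Y ∧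
    J1 S c n F Y a b κ' J ∧ J2 S c n F Y a b κ' J

/-- uniform decisions -/
def X1 (c : S.C) (n F : ℕ) (Y : S.R) (a b : ℕ) (κ' Q : S.R) : Prop := ∀ x : ℕ,
  (S.app Q x = 0 ∨ S.app Q x = 1) ∧
  (S.app Q x = 1 → ∃ Z : S.R, Sub S Z Y ∧
    (∀ k ∈ KK S Z, a * (blk S Y k).card ≤ b * (blk S Z k).card) ∧
    (∃ k0, ∀ k, k0 ≤ k → k ∈ KK S κ' → k ∈ KK S Z) ∧ Perp S c (Nat.pair x n) F Z) ∧
  (S.app Q x = 0 → ¬ ∃ Z : S.R, Sub S Z Y ∧
    (∀ k ∈ KK S Z, a * (blk S Y k).card ≤ b * (blk S Z k).card) ∧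
    (KK S Z ∩ KK S κ').Infinite ∧ Perp S c (Nat.pair x n) F Z)

def SX : Prop := ∀ (c : S.C) (n F : ℕ) (Y κ : S.R) (a b : ℕ), 0 < a →
  (KK S κ ∩ KK S Y).Infinite →
  ∃ κ' Q : S.R, (KK S κ').Infinite ∧ KK S κ' ⊆ KK S κ ∩ KK S Y ∧ X1 S c n F Y a b κ' Q

/-- the values below `l` of the characteristic function of the finite set with code `F` -/
def chi (F l : ℕ) : List ℕ := (List.range l).map fun i => if i ∈ dF F then 1 else 0

/-- the node `σ` is allowed by the real `ρ`, the number `x` and the finite set with code `F` -/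
def ok (ρ : S.R) (x F : ℕ) (σ : List ℕ) : Prop :=
  S.app ρ (encode (x, chi F σ.length, σ)) = 0

/-- the two components of a list of codes of pairs -/
def s1 (t : List ℕ) : List ℕ := t.map fun p => p.unpair.1
def s2 (t : List ℕ) : List ℕ := t.map fun p => p.unpair.2

/-- comparison of two trees -/
def SSim : Prop := ∀ ρ ρ' : S.R, ∃ U O Q : S.C,
  (∀ n, Opn S U n ∧ Opn S O n ∧ Opn S Q n) ∧
  ∀ (x : ℕ) (t : List ℕ) (F : ℕ) (Y : S.R), Grow S Y → (KK S Y).Infinite →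
    (S.mem U (Nat.pair (Nat.pair x (encode t)) F) Y →
      ∀ a, DB S O (Nat.pair x (Nat.pair (encode t) a)) F Y) ∧
    (Perp S U (Nat.pair x (encode t)) F Y → DB S Q (Nat.pair x (encode t)) F Y) ∧
    (∀ a, S.mem O (Nat.pair (Nat.pair x (Nat.pair (encode t) a)) F) Y →
      Dec S Y (t.length + 1) ∧
      (¬ ok S ρ' x F (s1 t ++ [a]) ∨ ∃ b, ok S ρ x F (s2 t ++ [b]) ∧
        S.mem U (Nat.pair (Nat.pair x (encode (t ++ [Nat.pair a b]))) F) Y)) ∧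
    (S.mem Q (Nat.pair (Nat.pair x (encode t)) F) Y →
      Dec S Y (t.length + 1) ∧ ∃ a, ok S ρ' x F (s1 t ++ [a]) ∧
        ∀ b, ok S ρ x F (s2 t ++ [b]) → Perp S U (Nat.pair x (encode (t ++ [Nat.pair a b]))) F Y)

end

/-! ### each sentence is given by a formula -/

def IsFm (P : Str → Prop) : Prop := ∃ φ : Fm, ∀ S : Str, φ.eval S [] [] [] ↔ P S

def P_fmDiff : Prop := IsFm SDiff
def P_fmPerp : Prop := IsFm SPerp
def P_fmComp : Prop := IsFm SComp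
def P_fmJoin : Prop := IsFm SJoin
def P_fmCpt : Prop := IsFm SCpt
def P_fmJ : Prop := IsFm SJ
def P_fmX : Prop := IsFm SX
def P_fmSim : Prop := IsFm SSim

/-! ### number predicates used in the formulas -/

def P_nMem : Prop := Delta11 fun p : ℕ × ℕ => p.1 ∈ dF p.2
def P_nCard : Prop := Delta11 fun p : ℕ × ℕ => (dF p.1).card = p.2

/-! ### combinatorics -/

/-- diagonalization (pseudo-intersections) -/
def P_diag : Prop := ∀ (Q : ℕ → Set ℕ → Prop) (K0 : Set ℕ),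
  (∀ i K K', Q i K → K'.Infinite → (K' \ K).Finite → Q i K') →
  (∀ i K, K ⊆ K0 → K.Infinite → ∃ K' ⊆ K, K'.Infinite ∧ Q i K') →
  ∀ K, K ⊆ K0 → K.Infinite → ∃ K' ⊆ K, K'.Infinite ∧ ∀ i, Q i K'

/-- exhaustion: finitely many members of `O` that almost exhaust `Y` -/
def P_exh : Prop := ∀ (O : (ℕ → ℕ) → Prop) (Y : ℕ → ℕ) (m : ℕ) (K : Set ℕ), K ⊆ KK VV Y →
  K.Infinite → ∃ K' ⊆ K, K'.Infinite ∧ ∃ L : List (ℕ → ℕ),
    (∀ Y' ∈ L, O Y' ∧ LeR VV Y' Y ∧ K' ⊆ KK VV Y') ∧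
    ∀ Z : ℕ → ℕ, Sub VV Z Y → KK VV Z ⊆ K' → (KK VV Z).Infinite → O Z →
      (∀ k ∈ KK VV Z, (blk VV Y k).card ≤ m * (blk VV Z k).card) →
      ∃ k ∈ KK VV Z, ∃ Y' ∈ L, ¬ Disjoint (blk VV Z k) (blk VV Y' k)

/-! ### the sentences are true -/

def P_vDiff : Prop := SDiff VV
def P_vPerp : Prop := SPerp VV
def P_vComp : Prop := SComp VV
def P_vJoin : Prop := SJoin VV
def P_vCpt : Prop := SCpt VV
def P_vJ : Prop := P_diag → P_exh → SJ VV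
def P_vX : Prop := P_diag → SX VV
def P_vSim : Prop := SSim VV

/-! ### the external part -/

/-- trees along a set of natural numbers -/
noncomputable def okB (S : Str) (ρ : S.R) (x : ℕ) (B : Set ℕ) (σ : List ℕ) : Prop :=
  S.app ρ (encode (x, (List.range σ.length).map (B.indicator fun _ => (1 : ℕ)), σ)) = 0

/-- `|A ∩ s|` -/
noncomputable def cA (A : Set ℕ) (s : Finset ℕ) : ℕ := ((s : Set ℕ) ∩ A).ncard

/-- properties of the ultrafilter used in the external part -/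
structure Uf (S : Str) (A : Set ℕ) (𝒰 : Ultrafilter ℕ) : Prop where
  free : ∀ k0, {k | k0 ≤ k} ∈ 𝒰
  uj : ∀ (c : S.C) (n F : ℕ) (Y : S.R) (a b : ℕ), 0 < a → Opn S c n → KK S Y ∈ 𝒰 →
    ∃ κ' J : S.R, KK S κ' ∈ 𝒰 ∧ J1 S c n F Y a b κ' J ∧ J2 S c n F Y a b κ' J
  ux : ∀ (c : S.C) (n F : ℕ) (Y : S.R) (a b : ℕ), 0 < a → KK S Y ∈ 𝒰 →
    ∃ κ' Q : S.R, KK S κ' ∈ 𝒰 ∧ X1 S c n F Y a b κ' Q
  uc : ∀ (Y J : S.R) (a b : ℕ), 0 < a →
    (∀ E : ℕ, (∀ x ∈ dF E, x ∈ A) → (∀ x ∈ dF E, InU S x Y) → S.app J E = 1) →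
    {k | (blk S Y k).Nonempty ∧ a * (blk S Y k).card ≤ b * cA A (blk S Y k)} ∈ 𝒰 →
    ∃ Z : S.R, Sub S Z Y ∧ KK S Z ∈ 𝒰 ∧
      (∀ k ∈ KK S Z, a * (blk S Y k).card ≤ b * (blk S Z k).card) ∧
      ∀ E : ℕ, (∀ x ∈ dF E, InU S x Z) → S.app J E = 1

def P_uf : Prop := ∀ S : Str, Countable S.R → Countable S.C →
  SJoin S → SCpt S → SJ S → SX S → (∃ κ : S.R, (KK S κ).Infinite) →
  ∀ A : Set ℕ, ∃ 𝒰 : Ultrafilter ℕ, Uf S A 𝒰

/-- the set `A` is substantial in the reservoir `Y` -/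
def Subst (S : Str) (A : Set ℕ) (𝒰 : Ultrafilter ℕ) (Y : S.R) : Prop :=
  ∃ c : ℝ, 0 < c ∧ {k | (blk S Y k).Nonempty ∧
    c * ((blk S Y k).card : ℝ) ≤ cA A (blk S Y k)} ∈ 𝒰

/-- the condition `(F, Y)` is compatible with `A` -/
def Compat (S : Str) (A : Set ℕ) (𝒰 : Ultrafilter ℕ) (F : ℕ) (Y : S.R) : Prop :=
  (∀ x ∈ dF F, x ∈ A) ∧ Subst S A 𝒰 Y

/-- nearly optimal reservoirs: `A` has density at least `2 a / b`, and each reservoir inside `Y` of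
relative size at least `a / b` contains a substantial part of `A` -/
structure NOpt (S : Str) (A : Set ℕ) (𝒰 : Ultrafilter ℕ) (Y : S.R) (a b : ℕ) : Prop where
  pos : 0 < a
  dens : {k | (blk S Y k).Nonempty ∧ 2 * a * (blk S Y k).card ≤ b * cA A (blk S Y k)} ∈ 𝒰
  opt : ∀ W : S.R, {k | blk S W k ⊆ blk S Y k ∧ a * (blk S Y k).card ≤ b * (blk S W k).card} ∈ 𝒰 →
    ∃ ε : ℝ, 0 < ε ∧ {k | ε * ((blk S Y k).card : ℝ) ≤ cA A (blk S W k)} ∈ 𝒰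

def P_no : Prop := ∀ (S : Str) (A : Set ℕ) (𝒰 : Ultrafilter ℕ), (∀ k0, {k | k0 ≤ k} ∈ 𝒰) →
  SDiff S → ∀ Y : S.R, Subst S A 𝒰 Y → ∃ (Y' : S.R) (a b : ℕ), LeR S Y' Y ∧ NOpt S A 𝒰 Y' a b

def P_ms : Prop := ∀ (S : Str) (A : Set ℕ) (𝒰 : Ultrafilter ℕ), Uf S A 𝒰 →
  ∀ (c : S.C) (n F : ℕ) (Y : S.R) (a b : ℕ), Opn S c n → NOpt S A 𝒰 Y a b →
  (∀ x ∈ dF F, x ∈ A) →
  (¬ ∃ F' Y', Le S F' Y' F Y ∧ Compat S A 𝒰 F' Y' ∧ S.mem c (Nat.pair n F') Y') →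
  ∃ Z : S.R, Sub S Z Y ∧ KK S Z ∈ 𝒰 ∧
    (∀ k ∈ KK S Z, a * (blk S Y k).card ≤ b * (blk S Z k).card) ∧ Perp S c n F Z

/-- every open class is decided by a compatible extension -/
def P_ml : Prop := ∀ (S : Str) (A : Set ℕ) (𝒰 : Ultrafilter ℕ), Uf S A 𝒰 → SDiff S →
  ∀ (c : S.C) (n : ℕ), Opn S c n → ∀ (F : ℕ) (Y : S.R), Compat S A 𝒰 F Y →
  ∃ F' Y', Le S F' Y' F Y ∧ Compat S A 𝒰 F' Y' ∧
    (S.mem c (Nat.pair n F') Y' ∨ Perp S c n F' Y')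

/-- a compatible extension forces a wrong value at some `x` -/
def P_xl : Prop := ∀ (S : Str) (A : Set ℕ) (𝒰 : Ultrafilter ℕ), Uf S A 𝒰 → SDiff S → SPerp S →
  ∀ X : Set ℕ, (∀ Q : S.R, ¬ ∀ x, S.app Q x = 1 ↔ x ∈ X) →
  ∀ (c : S.C) (n : ℕ), (∀ x, Opn S c (Nat.pair x n)) → ∀ (F : ℕ) (Y : S.R), Compat S A 𝒰 F Y →
  ∃ (x F' : ℕ) (Y' : S.R), Le S F' Y' F Y ∧ Compat S A 𝒰 F' Y' ∧
    ((x ∉ X ∧ S.mem c (Nat.pair (Nat.pair x n) F') Y') ∨ (x ∈ X ∧ Perp S c (Nat.pair x n) F' Y'))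

/-- generic sequences of conditions -/
structure Gen (S : Str) (A X : Set ℕ) (F : ℕ → ℕ) (Y : ℕ → S.R) : Prop where
  le : ∀ i, Le S (F (i + 1)) (Y (i + 1)) (F i) (Y i)
  sub : ∀ i, ∀ x ∈ dF (F i), x ∈ A
  inf : ∀ m, ∃ i, m ≤ (dF (F i)).card
  grow : ∀ i, Grow S (Y i)
  inf' : ∀ i, (KK S (Y i)).Infinite
  gen : ∀ (c : S.C) (n : ℕ), Opn S c n →
    ∃ i, S.mem c (Nat.pair n (F i)) (Y i) ∨ Perp S c n (F i) (Y i)
  gex : ∀ (c : S.C) (n : ℕ), (∀ x, Opn S c (Nat.pair x n)) → ∃ (x i : ℕ),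
    (x ∉ X ∧ S.mem c (Nat.pair (Nat.pair x n) (F i)) (Y i)) ∨
      (x ∈ X ∧ Perp S c (Nat.pair x n) (F i) (Y i))

def P_gen : Prop := P_ml → P_xl → ∀ S : Str, Countable S.C →
  SDiff S → SPerp S → ∀ X : Set ℕ, (∀ Q : S.R, ¬ ∀ x, S.app Q x = 1 ↔ x ∈ X) →
  ∀ (A : Set ℕ) (𝒰 : Ultrafilter ℕ), Uf S A 𝒰 → ∀ Y0 : S.R, Grow S Y0 → Subst S A 𝒰 Y0 →
  ∃ (F : ℕ → ℕ) (Y : ℕ → S.R), Gen S A X F Y

/-- the truth lemma -/
def P_truth : Prop := ∀ S : Str, SSim S → ∀ (A X : Set ℕ) (F : ℕ → ℕ) (Y : ℕ → S.R),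
  Gen S A X F Y → ∀ ρ ρ' : S.R,
    ¬ ∀ x, (x ∈ X ↔ ∃ f : ℕ → ℕ, ∀ m, 0 < m →
        okB S ρ x {n | ∃ i, n ∈ dF (F i)} ((List.range m).map f)) ∧
      (x ∉ X ↔ ∃ f : ℕ → ℕ, ∀ m, 0 < m →
        okB S ρ' x {n | ∃ i, n ∈ dF (F i)} ((List.range m).map f))

/-- the external part of the proof -/
def P_ext : Prop := ∀ S : Str, Countable S.R → Countable S.C →
  SDiff S → SPerp S → SJoin S → SCpt S → SJ S → SX S → SSim S →
  ∀ X : Set ℕ, (∀ Q : S.R, ¬ ∀ x, S.app Q x = 1 ↔ x ∈ X) →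
  ∀ (A : Set ℕ) (Y0 : S.R), Grow S Y0 →
  (∃ c : ℝ, 0 < c ∧ ∃ k0, ∀ k, k0 ≤ k → (blk S Y0 k).Nonempty ∧
    c * ((blk S Y0 k).card : ℝ) ≤ cA A (blk S Y0 k)) →
  ∃ B : Set ℕ, B ⊆ A ∧ B.Infinite ∧ ∀ ρ ρ' : S.R,
    ¬ ∀ x, (x ∈ X ↔ ∃ f : ℕ → ℕ, ∀ m, 0 < m → okB S ρ x B ((List.range m).map f)) ∧
      (x ∉ X ↔ ∃ f : ℕ → ℕ, ∀ m, 0 < m → okB S ρ' x B ((List.range m).map f))

end Pool.Agent.W562.HY
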