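import Mathlib
import Pool.Agent.W562.HY.Defs
import Pool.Agent.Helper941.Hyp.Sig

set_option autoImplicit false

namespace Pool.Agent.W562.HY

open Encodable Denumerable Nat.Partrec
open Pool.Agent.Helper941.Hyp Pool.Agent.Helper941.Zeta

theorem mem_iff_gt {l : List ℕ} {x : ℕ} : x ∈ l ↔ ∃ i < l.length, gt l i = x := by
  rw [List.mem_iff_getElem]
  constructor
  · rintro ⟨i, hi, h⟩
    exact ⟨i, hi, by simp [gt, List.getElem?_eq_getElem hi, h]⟩
  · rintro ⟨i, hi, h⟩
    refine ⟨i, hi, ?_⟩
    rw [← h]; simp [gt, List.getElem?_eq_getElem hi]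

theorem p_mem {α : Type} [Primcodable α] {f : α → ℕ} {g : α → List ℕ} (hf : Computable f)
    (hg : Computable g) : ComputablePred fun a => f a ∈ g a := by
  have h1 : ComputablePred fun a => ∃ i < (g a).length, gt (g a) i = f a :=
    p_bex (Computable.list_length.comp hg)
      (p_eq (c_gt (hg.comp Computable.fst) Computable.snd) (hf.comp Computable.fst))
  refine (h1.of_eq fun a => ?_)
  exact mem_iff_gt.symm

theorem nMem : P_nMem := by
  refine Delta11.of_computable ?_
  have h : ComputablePred fun p : ℕ × ℕ => p.1 ∈ (ofNat (List ℕ) p.2) :=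
    p_mem Computable.fst ((Computable.ofNat (List ℕ)).comp Computable.snd)
  refine h.of_eq fun p => ?_
  simp [dF]

theorem nCard : P_nCard := by
  have h1 : Delta11 fun q : (ℕ × ℕ) × List ℕ => q.2.length = q.1.2 ∧
      (∀ i < q.2.length, ∀ j < q.2.length, gt q.2 i = gt q.2 j → i = j) ∧
      (∀ i < q.2.length, gt q.2 i ∈ ofNat (List ℕ) q.1.1) ∧
      (∀ i < (ofNat (List ℕ) q.1.1).length, gt (ofNat (List ℕ) q.1.1) i ∈ q.2) := by
    refine Delta11.of_computable ?_
    have hl : Computable fun q : (ℕ × ℕ) × List ℕ => ofNat (List ℕ) q.1.1 :=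
      (Computable.ofNat (List ℕ)).comp (c_fst (c_fst c_id))
    refine p_and (p_eq (Computable.list_length.comp (c_snd c_id)) (c_snd (c_fst c_id)))
      (p_and ?_ (p_and ?_ ?_))
    · refine p_ball (Computable.list_length.comp (c_snd c_id)) ?_
      refine p_ball (Computable.list_length.comp (c_snd (c_fst c_id))) ?_
      refine p_imp (p_eq (c_gt (c_snd (c_fst (c_fst c_id))) (c_snd (c_fst c_id)))
        (c_gt (c_snd (c_fst (c_fst c_id))) (c_snd c_id)))
        (p_eq (c_snd (c_fst c_id)) (c_snd c_id))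
    · refine p_ball (Computable.list_length.comp (c_snd c_id)) ?_
      exact p_mem (c_gt (c_snd (c_fst c_id)) (c_snd c_id)) (hl.comp (c_fst c_id))
    · refine p_ball (Computable.list_length.comp hl) ?_
      exact p_mem (c_gt (hl.comp (c_fst c_id)) (c_snd c_id)) (c_snd (c_fst c_id))
  refine (Delta11.ex' h1).of_iff fun p => ?_
  simp only [dF]
  set L := ofNat (List ℕ) p.1
  have key : ∀ l : List ℕ, (∀ i < l.length, ∀ j < l.length, gt l i = gt l j → i = j) ↔
      l.Nodup := by
    intro l
    rw [List.nodup_iff_injective_get]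
    constructor
    · intro h a b hab
      have := h a a.2 b b.2 (by simp [gt]; simpa using hab)
      exact Fin.ext this
    · intro h i hi j hj hij
      have h2 := @h ⟨i, hi⟩ ⟨j, hj⟩ (by simpa [gt, hi, hj] using hij)
      simpa using congrArg Fin.val h2
  constructor
  · intro h
    refine ⟨L.dedup, ?_, (key _).2 (List.nodup_dedup _), ?_, ?_⟩
    · rw [← h]; exact (List.card_toFinset L).symm
    · intro i hi
      have : gt L.dedup i ∈ L.dedup := mem_iff_gt.2 ⟨i, hi, rfl⟩
      exact List.mem_dedup.1 this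
    · intro i hi
      exact List.mem_dedup.2 (mem_iff_gt.2 ⟨i, hi, rfl⟩)
  · rintro ⟨l, h1, h2, h3, h4⟩
    have h5 : l.toFinset = L.toFinset := by
      ext x
      simp only [List.mem_toFinset]
      constructor
      · intro hx
        obtain ⟨i, hi, e⟩ := mem_iff_gt.1 hx
        rw [← e]; exact h3 i hi
      · intro hx
        obtain ⟨i, hi, e⟩ := mem_iff_gt.1 hx
        rw [← e]; exact h4 i hi
    rw [← h5, List.toFinset_card_of_nodup ((key l).1 h2), h1]

theorem dF_surj (s : Finset ℕ) : ∃ n, dF n = s :=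
  ⟨encode s.toList, by simp [dF]⟩

end Pool.Agent.W562.HY
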