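import Mathlib
import Pool.Agent.W562.HY.Num
import Pool.Agent.W636.HY.Eval
import Pool.Agent.W928.HY.LS
import Pool.Agent.W928.HY.Basis
import Pool.Agent.W351.HY.VSmall
import Pool.Agent.W636.HY.VCpt
import Pool.Agent.W64.HY.Diag
import Pool.Agent.W382.HY.VJ
import Pool.Agent.W970.HY.VX
import Pool.Agent.W382.HY.VSim
import Pool.Agent.W970.HY.Uf
import Pool.Agent.W38.HY.NO
import Pool.Agent.W38.HY.MS
import Pool.Agent.W351.HY.Gen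
import Pool.Agent.W38.HY.Truth

/-!
Project HY: assembly of the external part.
-/

set_option autoImplicit false

namespace Pool.Agent.W562.HY

open Encodable Denumerable Nat.Partrec
open Pool.Agent.Helper941.Hyp Pool.Agent.Helper941.Zeta

section
variable {S : Str}

theorem LeR.trans {X Y Z : S.R} (h1 : LeR S X Y) (h2 : LeR S Y Z) : LeR S X Z := by
  obtain ⟨s1, i1, a, b, ha, hb⟩ := h1
  obtain ⟨s2, _, c, d, hc, hd⟩ := h2
  refine ⟨fun k => (s1 k).trans (s2 k), i1, c * a, d * b, Nat.mul_pos hc ha, fun k hk => ?_⟩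
  have hk' : k ∈ KK S Y := hk.mono (s1 k)
  have e1 := hb k hk
  have e2 := hd k hk'
  calc c * a * (blk S Z k).card = a * (c * (blk S Z k).card) := by ring
    _ ≤ a * (d * (blk S Y k).card) := Nat.mul_le_mul_left _ e2
    _ = d * (a * (blk S Y k).card) := by ring
    _ ≤ d * (b * (blk S X k).card) := Nat.mul_le_mul_left _ e1
    _ = d * b * (blk S X k).card := by ring

theorem Le.trans {F1 F2 F3 : ℕ} {Y1 Y2 Y3 : S.R} (h1 : Le S F1 Y1 F2 Y2)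
    (h2 : Le S F2 Y2 F3 Y3) : Le S F1 Y1 F3 Y3 := by
  refine ⟨h2.1.trans h1.1, fun n hn => ?_, h1.2.2.trans h2.2.2⟩
  rcases h1.2.1 n hn with h | ⟨k, hk⟩
  · exact h2.2.1 n h
  · exact Or.inr ⟨k, h2.2.2.1 k hk⟩

theorem le_of_leR {F : ℕ} {Y Z : S.R} (h : LeR S Z Y) : Le S F Z F Y :=
  ⟨subset_rfl, fun _ hn => Or.inl hn, h⟩

theorem Le.refl' {F : ℕ} {Y : S.R} (h : (KK S Y).Infinite) : Le S F Y F Y :=
  le_of_leR ⟨fun _ => subset_rfl, h, 1, 1, one_pos, fun _ _ => le_rfl⟩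

theorem Perp.mono {c : S.C} {n F F' : ℕ} {Y Y' : S.R} (h : Perp S c n F Y)
    (h1 : Le S F' Y' F Y) : Perp S c n F' Y' := fun F'' Y'' h2 => h F'' Y'' (h2.trans h1)

variable {A : Set ℕ} {𝒰 : Ultrafilter ℕ}

theorem inf_of_mem (hf : ∀ k0, {k | k0 ≤ k} ∈ 𝒰) {K : Set ℕ} (hK : K ∈ 𝒰) : K.Infinite := by
  refine Set.infinite_of_forall_exists_gt fun n => ?_
  obtain ⟨k, h1, h2⟩ := Ultrafilter.nonempty_of_mem (Filter.inter_mem hK (hf (n + 1)))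
  exact ⟨k, h1, h2⟩

theorem NOpt.kk {Y : S.R} {a b : ℕ} (h : NOpt S A 𝒰 Y a b) : KK S Y ∈ 𝒰 :=
  Filter.mem_of_superset h.dens fun _ hk => hk.1

/-- a large reservoir inside a nearly optimal one is substantial -/
theorem subst_of_opt (hf : ∀ k0, {k | k0 ≤ k} ∈ 𝒰) {Y Z : S.R} {a b : ℕ}
    (h : NOpt S A 𝒰 Y a b) (hs : Sub S Z Y) (hZ : KK S Z ∈ 𝒰)
    (hb : ∀ k ∈ KK S Z, a * (blk S Y k).card ≤ b * (blk S Z k).card) :
    LeR S Z Y ∧ Subst S A 𝒰 Z := by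
  refine ⟨⟨hs, inf_of_mem hf hZ, a, b, h.pos, hb⟩, ?_⟩
  obtain ⟨ε, h1, h2⟩ := h.opt Z (Filter.mem_of_superset hZ fun k hk => ⟨hs k, hb k hk⟩)
  refine ⟨ε, h1, Filter.mem_of_superset (Filter.inter_mem h2 hZ) fun k hk => ⟨hk.2, ?_⟩⟩
  refine le_trans ?_ hk.1
  have : ((blk S Z k).card : ℝ) ≤ (blk S Y k).card := by exact_mod_cast Finset.card_le_card (hs k)
  exact mul_le_mul_of_nonneg_left this h1.le

end

theorem ml : P_ml := by
  intro S A 𝒰 hU hD c n hc F Y hY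
  by_cases hex : ∃ F' Y', Le S F' Y' F Y ∧ Compat S A 𝒰 F' Y' ∧ S.mem c (Nat.pair n F') Y'
  · obtain ⟨F', Y', h1, h2, h3⟩ := hex
    exact ⟨F', Y', h1, h2, Or.inl h3⟩
  obtain ⟨Y1, a, b, h1, h2⟩ := Pool.Agent.W38.HY.NO.main S A 𝒰 hU.free hD Y hY.2
  obtain ⟨Z, z1, z2, z3, z4⟩ := Pool.Agent.W38.HY.main S A 𝒰 hU c n F Y1 a b hc h2 hY.1 (by
    rintro ⟨F', Y', e1, e2, e3⟩
    exact hex ⟨F', Y', e1.trans (le_of_leR h1), e2, e3⟩)
  obtain ⟨e1, e2⟩ := subst_of_opt hU.free h2 z1 z2 z3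
  exact ⟨F, Z, le_of_leR (e1.trans h1), ⟨hY.1, e2⟩, Or.inr z4⟩

theorem xl : P_xl := by
  intro S A 𝒰 hU hD hP X hX c n hc F Y hY
  by_contra hcon
  have H1 : ∀ x F' Y', Le S F' Y' F Y → Compat S A 𝒰 F' Y' →
      S.mem c (Nat.pair (Nat.pair x n) F') Y' → x ∈ X := by
    intro x F' Y' h1 h2 h3
    by_contra h4
    exact hcon ⟨x, F', Y', h1, h2, Or.inl ⟨h4, h3⟩⟩
  have H2 : ∀ x F' Y', Le S F' Y' F Y → Compat S A 𝒰 F' Y' →
      Perp S c (Nat.pair x n) F' Y' → x ∉ X := by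
    intro x F' Y' h1 h2 h3 h4
    exact hcon ⟨x, F', Y', h1, h2, Or.inr ⟨h4, h3⟩⟩
  obtain ⟨c', hc'⟩ := hP c
  have hc2 : ∀ m, Opn S c' m := by
    intro m F1 Y1 F2 Y2 h1 h2
    rw [hc'] at h2 ⊢
    exact h2.mono h1
  obtain ⟨Y1, a, b, h1, h2⟩ := Pool.Agent.W38.HY.NO.main S A 𝒰 hU.free hD Y hY.2
  obtain ⟨κ', Q, q1, q2⟩ := hU.ux c' n F Y1 a b h2.pos h2.kk
  refine hX Q fun x => ⟨fun hx => ?_, fun hx => ?_⟩
  · obtain ⟨Z, z1, z2, ⟨k0, z3⟩, z4⟩ := (q2 x).2.1 hx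
    have z5 : KK S Z ∈ 𝒰 := Filter.mem_of_superset (Filter.inter_mem q1 (hU.free k0))
      fun k hk => z3 k hk.2 hk.1
    obtain ⟨e1, e2⟩ := subst_of_opt hU.free h2 z1 z5 z2
    obtain ⟨F', Y', f1, f2, f3⟩ := ml S A 𝒰 hU hD c (Nat.pair x n) (hc x) F Z ⟨hY.1, e2⟩
    have f4 := f1.trans (le_of_leR (e1.trans h1))
    rcases f3 with f3 | f3
    · exact H1 x F' Y' f4 f2 f3
    · exact (z4 F' Y' f1 ((hc' _ _ _).2 f3)).elim
  · obtain ⟨Z, z1, z2, z3, z4⟩ := Pool.Agent.W38.HY.main S A 𝒰 hU c' (Nat.pair x n) F Y1 a b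
      (hc2 _) h2 hY.1 (by
      rintro ⟨F', Y', e1, e2, e3⟩
      rw [hc'] at e3
      exact H2 x F' Y' (e1.trans (le_of_leR h1)) e2 e3 hx)
    rcases (q2 x).1 with h0 | h0
    · exfalso
      refine (q2 x).2.2 h0 ⟨Z, z1, z3, ?_, z4⟩
      exact inf_of_mem hU.free (Filter.inter_mem z2 q1)
    · exact h0

theorem ext : P_ext := by
  intro S hR hC hD hP hJn hCp hJ hXs hSim X hX A Y0 hY0 ⟨cc, hcc, k0, hden⟩
  have hinf : (KK S Y0).Infinite := by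
    refine Set.infinite_of_forall_exists_gt fun n => ?_
    exact ⟨max k0 (n + 1), (hden _ (le_max_left _ _)).1, by
      have := le_max_right k0 (n + 1); omega⟩
  obtain ⟨𝒰, hU⟩ := Pool.Agent.W970.HY.UF.main S hR hC hJn hCp hJ hXs ⟨Y0, hinf⟩ A
  have hsub : Subst S A 𝒰 Y0 := ⟨cc, hcc, Filter.mem_of_superset (hU.free k0) hden⟩
  obtain ⟨F, Y, hG⟩ := Pool.Agent.W351.HY.G.main ml xl S hC hD hP X hX A 𝒰 hU Y0 hY0 hsub
  refine ⟨{n | ∃ i, n ∈ dF (F i)}, ?_, ?_, ?_⟩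
  · rintro n ⟨i, hi⟩
    exact hG.sub i n hi
  · intro hfin
    obtain ⟨i, hi⟩ := hG.inf (hfin.toFinset.card + 1)
    have : dF (F i) ⊆ hfin.toFinset := fun n hn => by
      rw [Set.Finite.mem_toFinset]; exact ⟨i, hn⟩
    have := Finset.card_le_card this
    omega
  · exact Pool.Agent.W38.HY.Truth.main S hSim A X F Y hG

end Pool.Agent.W562.HY
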