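import Mathlib
import Pool.Agent.W562.HY.Defs
import Pool.Agent.Helper941.Hyp.Sig

/-!
Project HY: number terms, formula macros with evaluation lemmas.
-/

set_option autoImplicit false

namespace Pool.Agent.W562.HY

open Encodable Denumerable Nat.Partrec
open Pool.Agent.Helper941.Hyp Pool.Agent.Helper941.Zeta

/-! ### terms -/

/-- number terms: computable functions of the list of the values of the number variables -/
structure Tm where
  f : List ℕ → ℕ
  h : Computable f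

theorem c_getD (i : ℕ) : Computable fun v : List ℕ => v.getD i 0 := by
  have h : Computable fun v : List ℕ => gt v i := c_gt c_id (c_const i)
  refine h.of_eq fun v => ?_
  simp [gt, List.getD_eq_getElem?_getD]

theorem c_tail : Computable fun v : List ℕ => v.tail := (Primrec.list_tail).to_comp

namespace Tm

def var (i : ℕ) : Tm := ⟨fun v => v.getD i 0, c_getD i⟩
def const (n : ℕ) : Tm := ⟨fun _ => n, c_const n⟩
def up (t : Tm) : Tm := ⟨fun v => t.f v.tail, t.h.comp c_tail⟩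
def pair (s t : Tm) : Tm := ⟨fun v => Nat.pair (s.f v) (t.f v), c_npair s.h t.h⟩
def u1 (s : Tm) : Tm := ⟨fun v => (s.f v).unpair.1, c_up1 s.h⟩
def u2 (s : Tm) : Tm := ⟨fun v => (s.f v).unpair.2, c_up2 s.h⟩
def add (s t : Tm) : Tm := ⟨fun v => s.f v + t.f v, c_add s.h t.h⟩
def mul (s t : Tm) : Tm := ⟨fun v => s.f v * t.f v, c_mul s.h t.h⟩
/-- application of a computable function -/
def map (g : ℕ → ℕ) (hg : Computable g) (s : Tm) : Tm := ⟨fun v => g (s.f v), hg.comp s.h⟩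

@[simp] theorem var_f (i : ℕ) (v : List ℕ) : (var i).f v = v.getD i 0 := rfl
@[simp] theorem const_f (n : ℕ) (v : List ℕ) : (const n).f v = n := rfl
@[simp] theorem up_f (t : Tm) (n : ℕ) (v : List ℕ) : t.up.f (n :: v) = t.f v := rfl
@[simp] theorem pair_f (s t : Tm) (v : List ℕ) : (pair s t).f v = Nat.pair (s.f v) (t.f v) := rfl
@[simp] theorem u1_f (s : Tm) (v : List ℕ) : (u1 s).f v = (s.f v).unpair.1 := rfl
@[simp] theorem u2_f (s : Tm) (v : List ℕ) : (u2 s).f v = (s.f v).unpair.2 := rfl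
@[simp] theorem add_f (s t : Tm) (v : List ℕ) : (add s t).f v = s.f v + t.f v := rfl
@[simp] theorem mul_f (s t : Tm) (v : List ℕ) : (mul s t).f v = s.f v * t.f v := rfl
@[simp] theorem map_f (g : ℕ → ℕ) (hg : Computable g) (s : Tm) (v : List ℕ) :
    (map g hg s).f v = g (s.f v) := rfl

end Tm

/-! ### logical combinators -/

namespace Fm

variable {S : Str} {v : List ℕ} {w : List S.R} {u : List S.C}

def imp (φ ψ : Fm) : Fm := neg (and φ (neg ψ))
def or (φ ψ : Fm) : Fm := neg (and (neg φ) (neg ψ))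
def iff (φ ψ : Fm) : Fm := and (imp φ ψ) (imp ψ φ)
def allN (φ : Fm) : Fm := neg (exN (neg φ))
def allR (φ : Fm) : Fm := neg (exR (neg φ))
def allC (φ : Fm) : Fm := neg (exC (neg φ))

theorem eval_neg (φ : Fm) : (neg φ).eval S v w u ↔ ¬ φ.eval S v w u := Iff.rfl
theorem eval_and (φ ψ : Fm) : (and φ ψ).eval S v w u ↔ φ.eval S v w u ∧ ψ.eval S v w u := Iff.rfl
theorem eval_exN (φ : Fm) : (exN φ).eval S v w u ↔ ∃ n, φ.eval S (n :: v) w u := Iff.rfl
theorem eval_exR (φ : Fm) : (exR φ).eval S v w u ↔ ∃ r, φ.eval S v (r :: w) u := Iff.rfl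
theorem eval_exC (φ : Fm) : (exC φ).eval S v w u ↔ ∃ c, φ.eval S v w (c :: u) := Iff.rfl

theorem eval_imp (φ ψ : Fm) : (imp φ ψ).eval S v w u ↔ (φ.eval S v w u → ψ.eval S v w u) := by
  simp only [imp, Fm.eval]; tauto

theorem eval_or (φ ψ : Fm) : (or φ ψ).eval S v w u ↔ (φ.eval S v w u ∨ ψ.eval S v w u) := by
  simp only [or, Fm.eval]; tauto

theorem eval_iff (φ ψ : Fm) : (iff φ ψ).eval S v w u ↔ (φ.eval S v w u ↔ ψ.eval S v w u) := by
  simp only [iff, eval_and, eval_imp]; tauto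

theorem eval_allN (φ : Fm) : (allN φ).eval S v w u ↔ ∀ n, φ.eval S (n :: v) w u := by
  simp only [allN, Fm.eval]; push Not; rfl

theorem eval_allR (φ : Fm) : (allR φ).eval S v w u ↔ ∀ r, φ.eval S v (r :: w) u := by
  simp only [allR, Fm.eval]; push Not; rfl

theorem eval_allC (φ : Fm) : (allC φ).eval S v w u ↔ ∀ c, φ.eval S v w (c :: u) := by
  simp only [allC, Fm.eval]; push Not; rfl

end Fm

open Fm

/-! ### number predicates -/

/-- unary, binary, ternary, quaternary predicates of terms -/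
def n1 (P : ℕ → Prop) (hP : Delta11 P) (s : Tm) : Fm :=
  .num (fun v => P (s.f v)) (hP.comp s.h)

def n2 (P : ℕ → ℕ → Prop) (hP : Delta11 fun p : ℕ × ℕ => P p.1 p.2) (s t : Tm) : Fm :=
  .num (fun v => P (s.f v) (t.f v)) (hP.comp (c_pair s.h t.h))

def n3 (P : ℕ → ℕ → ℕ → Prop) (hP : Delta11 fun p : ℕ × ℕ × ℕ => P p.1 p.2.1 p.2.2)
    (s t r : Tm) : Fm :=
  .num (fun v => P (s.f v) (t.f v) (r.f v)) (hP.comp (c_pair s.h (c_pair t.h r.h)))

def n4 (P : ℕ → ℕ → ℕ → ℕ → Prop)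
    (hP : Delta11 fun p : ℕ × ℕ × ℕ × ℕ => P p.1 p.2.1 p.2.2.1 p.2.2.2) (s t r q : Tm) : Fm :=
  .num (fun v => P (s.f v) (t.f v) (r.f v) (q.f v))
    (hP.comp (c_pair s.h (c_pair t.h (c_pair r.h q.h))))

def n5 (P : ℕ → ℕ → ℕ → ℕ → ℕ → Prop)
    (hP : Delta11 fun p : ℕ × ℕ × ℕ × ℕ × ℕ => P p.1 p.2.1 p.2.2.1 p.2.2.2.1 p.2.2.2.2)
    (s t r q o : Tm) : Fm :=
  .num (fun v => P (s.f v) (t.f v) (r.f v) (q.f v) (o.f v))
    (hP.comp (c_pair s.h (c_pair t.h (c_pair r.h (c_pair q.h o.h)))))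

section
variable {S : Str} {v : List ℕ} {w : List S.R} {u : List S.C}

theorem eval_n1 (P : ℕ → Prop) (hP : Delta11 P) (s : Tm) :
    (n1 P hP s).eval S v w u ↔ P (s.f v) := Iff.rfl
theorem eval_n2 (P : ℕ → ℕ → Prop) (hP) (s t : Tm) :
    (n2 P hP s t).eval S v w u ↔ P (s.f v) (t.f v) := Iff.rfl
theorem eval_n3 (P : ℕ → ℕ → ℕ → Prop) (hP) (s t r : Tm) :
    (n3 P hP s t r).eval S v w u ↔ P (s.f v) (t.f v) (r.f v) := Iff.rfl
theorem eval_n4 (P : ℕ → ℕ → ℕ → ℕ → Prop) (hP) (s t r q : Tm) :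
    (n4 P hP s t r q).eval S v w u ↔ P (s.f v) (t.f v) (r.f v) (q.f v) := Iff.rfl
theorem eval_n5 (P : ℕ → ℕ → ℕ → ℕ → ℕ → Prop) (hP) (s t r q o : Tm) :
    (n5 P hP s t r q o).eval S v w u ↔ P (s.f v) (t.f v) (r.f v) (q.f v) (o.f v) := Iff.rfl

end

theorem d_le : Delta11 fun p : ℕ × ℕ => p.1 ≤ p.2 :=
  Delta11.of_computable (p_le (c_fst c_id) (c_snd c_id))
theorem d_lt : Delta11 fun p : ℕ × ℕ => p.1 < p.2 :=
  Delta11.of_computable (p_lt (c_fst c_id) (c_snd c_id))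
theorem d_eq : Delta11 fun p : ℕ × ℕ => p.1 = p.2 :=
  Delta11.of_computable (p_eq (c_fst c_id) (c_snd c_id))

def fLeN (s t : Tm) : Fm := n2 (· ≤ ·) d_le s t
def fLtN (s t : Tm) : Fm := n2 (· < ·) d_lt s t
def fEqN (s t : Tm) : Fm := n2 (· = ·) d_eq s t

/-! ### atoms with terms -/

/-- `app Y s = t` -/
def fApp (y : ℕ) (s t : Tm) : Fm :=
  .exN (.exN (.and (fEqN (.var 1) s.up.up) (.and (fEqN (.var 0) t.up.up) (.app y 1 0))))

/-- `mem c s Y` -/
def fMemC (c : ℕ) (s : Tm) (y : ℕ) : Fm := .exN (.and (fEqN (.var 0) s.up) (.mem c 0 y))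

section
variable {S : Str} {v : List ℕ} {w : List S.R} {u : List S.C}

theorem eval_fLeN (s t : Tm) : (fLeN s t).eval S v w u ↔ s.f v ≤ t.f v := Iff.rfl
theorem eval_fLtN (s t : Tm) : (fLtN s t).eval S v w u ↔ s.f v < t.f v := Iff.rfl
theorem eval_fEqN (s t : Tm) : (fEqN s t).eval S v w u ↔ s.f v = t.f v := Iff.rfl

theorem eval_fApp (y : ℕ) (s t : Tm) :
    (fApp y s t).eval S v w u ↔ S.app (w.getD y S.r0) (s.f v) = t.f v := by
  constructor
  · rintro ⟨a, b, h1, h2, h3⟩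
    have h1' : a = s.f v := h1
    have h2' : b = t.f v := h2
    have h3' : S.app (w.getD y S.r0) a = b := h3
    rw [← h1', ← h2']; exact h3'
  · intro h
    exact ⟨s.f v, t.f v, rfl, rfl, h⟩

theorem eval_fMemC (c : ℕ) (s : Tm) (y : ℕ) :
    (fMemC c s y).eval S v w u ↔ S.mem (u.getD c S.c0) (s.f v) (w.getD y S.r0) := by
  constructor
  · rintro ⟨a, h1, h3⟩
    have h1' : a = s.f v := h1
    have h3' : S.mem (u.getD c S.c0) a (w.getD y S.r0) := h3
    rw [← h1']; exact h3'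
  · intro h
    exact ⟨s.f v, rfl, h⟩

end

/-- the value of a real as a new number variable: `φ` is evaluated with `app Y s` prepended -/
def fLet (y : ℕ) (s : Tm) (φ : Fm) : Fm := .exN (.and (fApp y s.up (.var 0)) φ)

theorem eval_fLet {S : Str} {v : List ℕ} {w : List S.R} {u : List S.C} (y : ℕ) (s : Tm) (φ : Fm) :
    (fLet y s φ).eval S v w u ↔ φ.eval S (S.app (w.getD y S.r0) (s.f v) :: v) w u := by
  constructor
  · rintro ⟨a, h1, h2⟩
    rw [eval_fApp] at h1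
    have h1' : S.app (w.getD y S.r0) (s.f v) = a := h1
    rw [h1']; exact h2
  · intro h
    exact ⟨_, (eval_fApp _ _ _).2 rfl, h⟩

end Pool.Agent.W562.HY
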