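import Mathlib
import Pool.Agent.W562.HY.Mac
import Pool.Agent.W562.HY.Num

/-!
Project HY: macros for blocks, reservoirs and conditions.
-/

set_option autoImplicit false

namespace Pool.Agent.W562.HY

open Encodable Denumerable Nat.Partrec
open Pool.Agent.Helper941.Hyp Pool.Agent.Helper941.Zeta

open Fm

/-! ### number predicates on codes of finite sets -/

theorem d_mem {α : Type} [Primcodable α] {x s : α → ℕ} (hx : Computable x) (hs : Computable s) :
    Delta11 fun a => x a ∈ dF (s a) :=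
  Delta11.comp (P := fun p : ℕ × ℕ => p.1 ∈ dF p.2) nMem (c_pair hx hs)

theorem d_lea {α : Type} [Primcodable α] {x s : α → ℕ} (hx : Computable x) (hs : Computable s) :
    Delta11 fun a => x a ≤ s a := Delta11.of_computable (p_le hx hs)

theorem d_lta {α : Type} [Primcodable α] {x s : α → ℕ} (hx : Computable x) (hs : Computable s) :
    Delta11 fun a => x a < s a := Delta11.of_computable (p_lt hx hs)

theorem d_eqa {α : Type} [Primcodable α] {x s : α → ℕ} (hx : Computable x) (hs : Computable s) :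
    Delta11 fun a => x a = s a := Delta11.of_computable (p_eq hx hs)

/-- `dF s ⊆ dF t` -/
theorem d_sub {α : Type} [Primcodable α] {s t : α → ℕ} (hs : Computable s) (ht : Computable t) :
    Delta11 fun a => dF (s a) ⊆ dF (t a) := by
  have h : Delta11 fun p : α × ℕ => p.2 ∈ dF (s p.1) → p.2 ∈ dF (t p.1) :=
    (d_mem Computable.snd (hs.comp Computable.fst)).imp
      (d_mem Computable.snd (ht.comp Computable.fst))
  exact h.all.of_iff fun a => Iff.rfl

/-- `dF r = dF s \ dF t` -/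
theorem d_sdiff {α : Type} [Primcodable α] {r s t : α → ℕ} (hr : Computable r)
    (hs : Computable s) (ht : Computable t) :
    Delta11 fun a => dF (r a) = dF (s a) \ dF (t a) := by
  have h : Delta11 fun p : α × ℕ => (p.2 ∈ dF (r p.1) ↔
      (p.2 ∈ dF (s p.1) ∧ ¬ p.2 ∈ dF (t p.1))) :=
    (d_mem Computable.snd (hr.comp Computable.fst)).iff
      ((d_mem Computable.snd (hs.comp Computable.fst)).and
      (d_mem Computable.snd (ht.comp Computable.fst)).not)
  refine h.all.of_iff fun a => ?_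
  rw [Finset.ext_iff]
  simp only [Finset.mem_sdiff]

/-- `dF r = dF s ∩ dF t` -/
theorem d_inter {α : Type} [Primcodable α] {r s t : α → ℕ} (hr : Computable r)
    (hs : Computable s) (ht : Computable t) :
    Delta11 fun a => dF (r a) = dF (s a) ∩ dF (t a) := by
  have h : Delta11 fun p : α × ℕ => (p.2 ∈ dF (r p.1) ↔
      (p.2 ∈ dF (s p.1) ∧ p.2 ∈ dF (t p.1))) :=
    (d_mem Computable.snd (hr.comp Computable.fst)).iff
      ((d_mem Computable.snd (hs.comp Computable.fst)).and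
      (d_mem Computable.snd (ht.comp Computable.fst)))
  refine h.all.of_iff fun a => ?_
  rw [Finset.ext_iff]
  simp only [Finset.mem_inter]

/-- `a * |dF s| ≤ b * |dF t|` -/
theorem d_card {α : Type} [Primcodable α] {a s b t : α → ℕ} (ha : Computable a)
    (hs : Computable s) (hb : Computable b) (ht : Computable t) :
    Delta11 fun x => a x * (dF (s x)).card ≤ b x * (dF (t x)).card := by
  have h1 : Delta11 fun p : (α × ℕ) × ℕ => (dF (s p.1.1)).card = p.1.2 ∧
      (dF (t p.1.1)).card = p.2 ∧ a p.1.1 * p.1.2 ≤ b p.1.1 * p.2 := by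
    refine (Delta11.comp (P := fun p : ℕ × ℕ => (dF p.1).card = p.2) nCard
      (f := fun p : (α × ℕ) × ℕ => (s p.1.1, p.1.2)) (c_pair (hs.comp (c_fst (c_fst c_id)))
        (c_snd (c_fst c_id)))).and ((Delta11.comp (P := fun p : ℕ × ℕ => (dF p.1).card = p.2) nCard
      (f := fun p : (α × ℕ) × ℕ => (t p.1.1, p.2)) (c_pair (ht.comp (c_fst (c_fst c_id)))
        (c_snd c_id))).and ?_)
    exact d_lea (c_mul (ha.comp (c_fst (c_fst c_id))) (c_snd (c_fst c_id)))
      (c_mul (hb.comp (c_fst (c_fst c_id))) (c_snd c_id))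
  refine h1.ex.ex.of_iff fun x => ?_
  constructor
  · intro h
    exact ⟨_, _, rfl, rfl, h⟩
  · rintro ⟨c, d, h1, h2, h3⟩
    rw [← h1, ← h2] at h3; exact h3

theorem d_ne {α : Type} [Primcodable α] {s : α → ℕ} (hs : Computable s) :
    Delta11 fun a => (dF (s a)).Nonempty := by
  have h : Delta11 fun p : α × ℕ => p.2 ∈ dF (s p.1) :=
    d_mem Computable.snd (hs.comp Computable.fst)
  exact h.ex.of_iff fun a => Iff.rfl

/-! ### macros -/

/-- `x ∈ blk Y k` -/
def fBlk (x : Tm) (y : ℕ) (k : Tm) : Fm :=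
  fLet y k (n2 (fun a b => a ∈ dF b) (d_mem Computable.fst Computable.snd) x.up (.var 0))

/-- `k ∈ KK Y` -/
def fKK (k : Tm) (y : ℕ) : Fm := fLet y k (n1 (fun a => (dF a).Nonempty) (d_ne Computable.id) (.var 0))

/-- `Sub Z Y` -/
def fSub (z y : ℕ) : Fm :=
  .allN (fLet z (.var 0) (fLet y (.var 1) (n2 (fun a b => dF a ⊆ dF b)
    (d_sub Computable.fst Computable.snd) (.var 1) (.var 0))))

/-- `(KK Y).Infinite` -/
def fInf (y : ℕ) : Fm := .allN (.exN (.and (fLeN (.var 1) (.var 0)) (fKK (.var 0) y)))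

/-- `a * |Y_k| ≤ b * |Z_k|` -/
def fCard (a : Tm) (y : ℕ) (b : Tm) (z : ℕ) (k : Tm) : Fm :=
  fLet y k (fLet z k.up (n4 (fun a s b t => a * (dF s).card ≤ b * (dF t).card)
    (d_card (c_fst c_id) (c_fst (c_snd c_id)) (c_fst (c_snd (c_snd c_id)))
      (c_snd (c_snd (c_snd c_id))))
    a.up.up (.var 1) b.up.up (.var 0)))

/-- `Big a b Z Y` -/
def fBig (a b : Tm) (z y : ℕ) : Fm :=
  .allN (.imp (fKK (.var 0) z) (fCard a.up y b.up z (.var 0)))

/-- `LeR Z Y` -/
def fLeR (z y : ℕ) : Fm :=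
  .and (fSub z y) (.and (fInf z) (.exN (.exN (.and (fLtN (.const 0) (.var 1))
    (fBig (.var 1) (.var 0) z y)))))

/-- `InU n Y` -/
def fInU (n : Tm) (y : ℕ) : Fm := .exN (fBlk n.up y (.var 0))

/-- `x ∈ dF s` -/
def fMem (x s : Tm) : Fm := n2 (fun a b => a ∈ dF b) (d_mem Computable.fst Computable.snd) x s

/-- `dF s ⊆ dF t` -/
def fSubF (s t : Tm) : Fm := n2 (fun a b => dF a ⊆ dF b) (d_sub Computable.fst Computable.snd) s t

/-- `Le F' Y' F Y` -/
def fLe (F' : Tm) (y' : ℕ) (F : Tm) (y : ℕ) : Fm :=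
  .and (fSubF F F') (.and (.allN (.imp (fMem (.var 0) F'.up)
    (.or (fMem (.var 0) F.up) (fInU (.var 0) y)))) (fLeR y' y))

/-- `Opn c n` -/
def fOpn (c : ℕ) (n : Tm) : Fm :=
  .allN (.allR (.allN (.allR (.imp (fLe (.var 0) 0 (.var 1) 1)
    (.imp (fMemC c (.pair n.up.up (.var 1)) 1) (fMemC c (.pair n.up.up (.var 0)) 0))))))

/-- `Perp c n F Y` -/
def fPerp (c : ℕ) (n F : Tm) (y : ℕ) : Fm :=
  .allN (.allR (.imp (fLe (.var 0) 0 F.up (y + 1)) (.neg (fMemC c (.pair n.up (.var 0)) 0))))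

/-- `DB c n F Y` -/
def fDB (c : ℕ) (n F : Tm) (y : ℕ) : Fm :=
  .allN (.allR (.imp (fLe (.var 0) 0 F.up (y + 1))
    (.exN (.exR (.and (fLe (.var 0) 0 (.var 1) 1) (fMemC c (.pair n.up.up (.var 0)) 0))))))

/-- `Grow Y` -/
def fGrow (y : ℕ) : Fm := .allN (.allN (.imp (fBlk (.var 0) y (.var 1)) (fLeN (.var 1) (.var 0))))

/-- `Dec Y l` -/
def fDec (y : ℕ) (l : Tm) : Fm :=
  .allN (.allN (.imp (fBlk (.var 0) y (.var 1)) (fLeN l.up.up (.var 0))))

section
variable {S : Str} {v : List ℕ} {w : List S.R} {u : List S.C}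

theorem eval_fBlk (x : Tm) (y : ℕ) (k : Tm) :
    (fBlk x y k).eval S v w u ↔ x.f v ∈ blk S (w.getD y S.r0) (k.f v) := by
  rw [fBlk, eval_fLet, eval_n2]; rfl

theorem eval_fKK (k : Tm) (y : ℕ) :
    (fKK k y).eval S v w u ↔ k.f v ∈ KK S (w.getD y S.r0) := by
  rw [fKK, eval_fLet, eval_n1]; rfl

theorem eval_fSub (z y : ℕ) :
    (fSub z y).eval S v w u ↔ Sub S (w.getD z S.r0) (w.getD y S.r0) := by
  rw [fSub, eval_allN]
  refine forall_congr' fun k => ?_
  rw [eval_fLet, eval_fLet, eval_n2]; rfl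

theorem eval_fInf (y : ℕ) :
    (fInf y).eval S v w u ↔ (KK S (w.getD y S.r0)).Infinite := by
  rw [fInf, eval_allN]
  simp only [eval_exN, eval_and, eval_fLeN, eval_fKK]
  constructor
  · intro h
    refine Set.infinite_of_forall_exists_gt fun n => ?_
    obtain ⟨k, h1, h2⟩ := h (n + 1)
    exact ⟨k, h2, h1⟩
  · intro h n
    obtain ⟨k, h1, h2⟩ := h.exists_gt n
    exact ⟨k, le_of_lt h2, h1⟩

theorem eval_fCard (a : Tm) (y : ℕ) (b : Tm) (z : ℕ) (k : Tm) :
    (fCard a y b z k).eval S v w u ↔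
      a.f v * (blk S (w.getD y S.r0) (k.f v)).card ≤ b.f v * (blk S (w.getD z S.r0) (k.f v)).card := by
  rw [fCard, eval_fLet, eval_fLet, eval_n4]; rfl

theorem eval_fBig (a b : Tm) (z y : ℕ) :
    (fBig a b z y).eval S v w u ↔ Big S (a.f v) (b.f v) (w.getD z S.r0) (w.getD y S.r0) := by
  rw [fBig, eval_allN]
  refine forall_congr' fun k => ?_
  rw [eval_imp, eval_fKK, eval_fCard]; rfl

theorem eval_fLeR (z y : ℕ) :
    (fLeR z y).eval S v w u ↔ LeR S (w.getD z S.r0) (w.getD y S.r0) := by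
  rw [fLeR, eval_and, eval_and, eval_fSub, eval_fInf]
  refine and_congr Iff.rfl (and_congr Iff.rfl ?_)
  simp only [eval_exN, eval_and, eval_fLtN, eval_fBig]
  rfl

theorem eval_fInU (n : Tm) (y : ℕ) :
    (fInU n y).eval S v w u ↔ InU S (n.f v) (w.getD y S.r0) := by
  rw [fInU, eval_exN]
  refine exists_congr fun k => ?_
  rw [eval_fBlk]; rfl

theorem eval_fMem (x s : Tm) : (fMem x s).eval S v w u ↔ x.f v ∈ dF (s.f v) := Iff.rfl
theorem eval_fSubF (x s : Tm) : (fSubF x s).eval S v w u ↔ dF (x.f v) ⊆ dF (s.f v) := Iff.rfl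

theorem eval_fLe (F' : Tm) (y' : ℕ) (F : Tm) (y : ℕ) :
    (fLe F' y' F y).eval S v w u ↔ Le S (F'.f v) (w.getD y' S.r0) (F.f v) (w.getD y S.r0) := by
  rw [fLe, eval_and, eval_and, eval_fSubF, eval_fLeR, eval_allN]
  refine and_congr Iff.rfl (and_congr (forall_congr' fun n => ?_) Iff.rfl)
  rw [eval_imp, eval_or, eval_fInU]; rfl

theorem eval_fOpn (c : ℕ) (n : Tm) :
    (fOpn c n).eval S v w u ↔ Opn S (u.getD c S.c0) (n.f v) := by
  simp only [fOpn, eval_allN, eval_allR, eval_imp, eval_fLe, eval_fMemC]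
  rfl

theorem eval_fPerp (c : ℕ) (n F : Tm) (y : ℕ) :
    (fPerp c n F y).eval S v w u ↔
      Perp S (u.getD c S.c0) (n.f v) (F.f v) (w.getD y S.r0) := by
  simp only [fPerp, eval_allN, eval_allR, eval_imp, eval_fLe, eval_neg, eval_fMemC]
  rfl

theorem eval_fDB (c : ℕ) (n F : Tm) (y : ℕ) :
    (fDB c n F y).eval S v w u ↔ DB S (u.getD c S.c0) (n.f v) (F.f v) (w.getD y S.r0) := by
  simp only [fDB, eval_allN, eval_allR, eval_imp, eval_fLe, eval_exN, eval_exR, eval_and,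
    eval_fMemC]
  rfl

theorem eval_fGrow (y : ℕ) : (fGrow y).eval S v w u ↔ Grow S (w.getD y S.r0) := by
  simp only [fGrow, eval_allN, eval_imp, eval_fBlk, eval_fLeN]
  rfl

theorem eval_fDec (y : ℕ) (l : Tm) :
    (fDec y l).eval S v w u ↔ Dec S (w.getD y S.r0) (l.f v) := by
  simp only [fDec, eval_allN, eval_imp, eval_fBlk, eval_fLeN]
  rfl

end

end Pool.Agent.W562.HY
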