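import Mathlib
import Pool.Agent.W562.HY.Mac2

/-!
Project HY: the formulas of the sentences (first part).
-/

set_option autoImplicit false

namespace Pool.Agent.W562.HY

open Encodable Denumerable Nat.Partrec
open Pool.Agent.Helper941.Hyp Pool.Agent.Helper941.Zeta

open Fm

/-! ### SDiff -/

def rDiff (a b y w z : ℕ) : Prop :=
  (a * (dF y).card ≤ b * (dF y \ dF w).card → dF z = dF y \ dF w) ∧
  (¬ a * (dF y).card ≤ b * (dF y \ dF w).card → dF z = ∅)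

theorem d_rDiff : Delta11 fun p : ℕ × ℕ × ℕ × ℕ × ℕ =>
    rDiff p.1 p.2.1 p.2.2.1 p.2.2.2.1 p.2.2.2.2 := by
  -- use a code `e` of the difference
  have ha : Computable fun p : (ℕ × ℕ × ℕ × ℕ × ℕ) × ℕ => p.1.1 := c_fst (c_fst c_id)
  have hb : Computable fun p : (ℕ × ℕ × ℕ × ℕ × ℕ) × ℕ => p.1.2.1 := c_fst (c_snd (c_fst c_id))
  have hy : Computable fun p : (ℕ × ℕ × ℕ × ℕ × ℕ) × ℕ => p.1.2.2.1 :=
    c_fst (c_snd (c_snd (c_fst c_id)))
  have hw : Computable fun p : (ℕ × ℕ × ℕ × ℕ × ℕ) × ℕ => p.1.2.2.2.1 :=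
    c_fst (c_snd (c_snd (c_snd (c_fst c_id))))
  have hz : Computable fun p : (ℕ × ℕ × ℕ × ℕ × ℕ) × ℕ => p.1.2.2.2.2 :=
    c_snd (c_snd (c_snd (c_snd (c_fst c_id))))
  have he : Computable fun p : (ℕ × ℕ × ℕ × ℕ × ℕ) × ℕ => p.2 := c_snd c_id
  have h1 : Delta11 fun p : (ℕ × ℕ × ℕ × ℕ × ℕ) × ℕ =>
      dF p.2 = dF p.1.2.2.1 \ dF p.1.2.2.2.1 ∧
      ((p.1.1 * (dF p.1.2.2.1).card ≤ p.1.2.1 * (dF p.2).card → dF p.1.2.2.2.2 ⊆ dF p.2 ∧
        dF p.2 ⊆ dF p.1.2.2.2.2) ∧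
      (¬ p.1.1 * (dF p.1.2.2.1).card ≤ p.1.2.1 * (dF p.2).card →
        ¬ (dF p.1.2.2.2.2).Nonempty)) :=
    (d_sdiff he hy hw).and (((d_card ha hy hb he).imp ((d_sub hz he).and (d_sub he hz))).and
      ((d_card ha hy hb he).not.imp (d_ne hz).not))
  refine h1.ex.of_iff fun p => ?_
  obtain ⟨a, b, y, w, z⟩ := p
  simp only [rDiff]
  constructor
  · rintro ⟨h2, h3⟩
    obtain ⟨e, he'⟩ := dF_surj (dF y \ dF w)
    refine ⟨e, he', ?_, ?_⟩
    · intro h4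
      rw [he'] at h4
      rw [h2 h4, he']
      exact ⟨subset_rfl, subset_rfl⟩
    · intro h4
      rw [he'] at h4
      rw [h3 h4]
      exact Finset.not_nonempty_empty
  · rintro ⟨e, he', h2, h3⟩
    rw [← he']
    refine ⟨fun h4 => Finset.Subset.antisymm (h2 h4).1 (h2 h4).2, fun h4 => ?_⟩
    exact Finset.not_nonempty_iff_eq_empty.1 (h3 h4)

theorem fmDiff : P_fmDiff := by
  refine ⟨.allR (.allR (.allN (.allN (.exR (.allN
    (fLet 2 (.var 0) (fLet 1 (.var 1) (fLet 0 (.var 2)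
      (n5 rDiff d_rDiff (.var 5) (.var 4) (.var 2) (.var 1) (.var 0)))))))))), fun S => ?_⟩
  simp only [eval_allR, eval_allN, eval_exR, eval_fLet, eval_n5]
  rfl

/-! ### SPerp -/

theorem fmPerp : P_fmPerp := by
  refine ⟨.allC (.exC (.allN (.allN (.allR (.iff (fMemC 0 (.pair (.var 1) (.var 0)) 0)
    (fPerp 1 (.var 1) (.var 0) 0)))))), fun S => ?_⟩
  simp only [eval_allC, eval_exC, eval_allN, eval_allR, eval_iff, eval_fMemC, eval_fPerp]
  rfl

/-! ### SComp -/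

theorem d_ev : Delta11 fun p : ℕ × ℕ × ℕ => p.2.2 ∈ Code.eval (ofNat Code p.1) p.2.1 := by
  refine (delta_eval (c_fst c_id) (c_fst (c_snd c_id)) (c_snd (c_snd c_id))).of_iff fun p => ?_
  rw [Part.eq_some_iff]

theorem fmComp : P_fmComp := by
  refine ⟨.allN (.imp (.allN (.exN (n3 (fun e n m => m ∈ Code.eval (ofNat Code e) n) d_ev
    (.var 2) (.var 1) (.var 0)))) (.exR (.allN (fLet 0 (.var 0)
      (n3 (fun e n m => m ∈ Code.eval (ofNat Code e) n) d_ev (.var 2) (.var 1) (.var 0)))))),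
    fun S => ?_⟩
  simp only [eval_allN, eval_imp, eval_exN, eval_exR, eval_fLet, eval_n3]
  rfl

/-! ### SJoin -/

theorem fmJoin : P_fmJoin := by
  -- reals V, Y, J, V' = 3, 2, 1, 0; numbers m, a, b
  refine ⟨.allR (.allR (.allR (.allN (.allN (.allN (.exR (.and
    (.allN (.allN (.imp (.neg (fEqN (.var 1) (.var 4)))
      (fLet 3 (.pair (.var 1) (.var 0)) (fApp 0 (.pair (.var 2) (.var 1)) (.var 0))))))
    (.and (.allN (fLet 2 (.var 0) (fApp 0 (.pair (.var 4) (.pair (.const 0) (.var 1))) (.var 0))))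
    (.and (.allN (fLet 1 (.var 0) (fApp 0 (.pair (.var 4) (.pair (.const 1) (.var 1))) (.var 0))))
      (fApp 0 (.pair (.var 2) (.pair (.const 2) (.const 0))) (.pair (.var 1) (.var 0)))))))))))),
    fun S => ?_⟩
  simp only [eval_allR, eval_allN, eval_exR, eval_and, eval_imp, eval_neg, eval_fEqN, eval_fLet,
    eval_fApp]
  rfl

/-! ### SX -/

/-- `a |Y_k| ≤ b |Z_k|` on `KK Z` is `Big` -/
def fX1 (c : ℕ) (n F : Tm) (y : ℕ) (a b : Tm) (κ q : ℕ) : Fm :=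
  .allN (.and (.or (fApp q (.var 0) (.const 0)) (fApp q (.var 0) (.const 1)))
    (.and (.imp (fApp q (.var 0) (.const 1)) (.exR (.and (fSub 0 (y + 1))
      (.and (fBig a.up b.up 0 (y + 1)) (.and (.exN (.allN (.imp (fLeN (.var 1) (.var 0))
        (.imp (fKK (.var 0) (κ + 1)) (fKK (.var 0) 0)))))
        (fPerp c (.pair (.var 0) n.up) F.up 0))))))
    (.imp (fApp q (.var 0) (.const 0)) (.neg (.exR (.and (fSub 0 (y + 1))
      (.and (fBig a.up b.up 0 (y + 1)) (.and (.allN (.exN (.and (fLeN (.var 1) (.var 0))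
        (.and (fKK (.var 0) 0) (fKK (.var 0) (κ + 1))))))
        (fPerp c (.pair (.var 0) n.up) F.up 0)))))))))

theorem inf_iff {K : Set ℕ} : K.Infinite ↔ ∀ n, ∃ k, n ≤ k ∧ k ∈ K := by
  constructor
  · intro h n
    obtain ⟨k, h1, h2⟩ := h.exists_gt n
    exact ⟨k, le_of_lt h2, h1⟩
  · intro h
    refine Set.infinite_of_forall_exists_gt fun n => ?_
    obtain ⟨k, h1, h2⟩ := h (n + 1)
    exact ⟨k, h2, h1⟩

theorem eval_fX1 {S : Str} {v : List ℕ} {w : List S.R} {u : List S.C} (c : ℕ) (n F : Tm) (y : ℕ)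
    (a b : Tm) (κ q : ℕ) : (fX1 c n F y a b κ q).eval S v w u ↔
      X1 S (u.getD c S.c0) (n.f v) (F.f v) (w.getD y S.r0) (a.f v) (b.f v) (w.getD κ S.r0)
        (w.getD q S.r0) := by
  rw [fX1, eval_allN]
  refine forall_congr' fun x => ?_
  simp only [eval_and, eval_or, eval_fApp, eval_imp, eval_exR, eval_fSub, eval_fBig, eval_exN,
    eval_allN, eval_fLeN, eval_fKK, eval_fPerp, eval_neg, inf_iff]
  rfl

theorem fmX : P_fmX := by
  -- c; n F a b = 3 2 1 0; Y κ = 1 0, then κ' Q = 1 0, Y κ = 3 2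
  refine ⟨.allC (.allN (.allN (.allR (.allR (.allN (.allN (.imp (fLtN (.const 0) (.var 1))
    (.imp (.allN (.exN (.and (fLeN (.var 1) (.var 0)) (.and (fKK (.var 0) 0) (fKK (.var 0) 1)))))
    (.exR (.exR (.and (fInf 1) (.and (.allN (.imp (fKK (.var 0) 1)
      (.and (fKK (.var 0) 2) (fKK (.var 0) 3))))
      (fX1 0 (.var 3) (.var 2) 3 (.var 1) (.var 0) 1 0))))))))))))), fun S => ?_⟩
  simp only [eval_allC, eval_allN, eval_allR, eval_imp, eval_fLtN, eval_exN, eval_and, eval_fLeN,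
    eval_fKK, eval_exR, eval_fInf, eval_fX1]
  simp only [SX, inf_iff]
  rfl

end Pool.Agent.W562.HY
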