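import Mathlib
import Pool.Agent.W562.HY.FmA

/-!
Project HY: the formulas of the sentences (second part).
-/

set_option autoImplicit false

namespace Pool.Agent.W562.HY

open Encodable Denumerable Nat.Partrec
open Pool.Agent.Helper941.Hyp Pool.Agent.Helper941.Zeta

open Fm

/-! ### SCpt -/

/-- `x ∈ vY V i k` -/
def fvY (x : Tm) (V : ℕ) (i k : Tm) : Fm := fLet V (.pair i (.pair (.const 0) k)) (fMem x.up (.var 0))

/-- `(vY V i k).Nonempty` -/
def fvN (V : ℕ) (i k : Tm) : Fm := .exN (fvY (.var 0) V i.up k.up)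

/-- `vJ V i E = 1` -/
def fvJ (V : ℕ) (i E : Tm) : Fm := fApp V (.pair i (.pair (.const 1) E)) (.const 1)

/-- `va V i * |vY V i k| ≤ vb V i * |dF s ∩ vY V i k|` -/
def fvC (V : ℕ) (i k s : Tm) : Fm :=
  fLet V (.pair i (.pair (.const 0) k)) (fLet V (.pair i.up (.pair (.const 2) (.const 0)))
    (.exN (.and (n3 (fun r s t => dF r = dF s ∩ dF t)
      (d_inter (c_fst c_id) (c_fst (c_snd c_id)) (c_snd (c_snd c_id))) (.var 0) s.up.up.up (.var 2))
      (n4 (fun a s b t => a * (dF s).card ≤ b * (dF t).card)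
        (d_card (c_fst c_id) (c_fst (c_snd c_id)) (c_fst (c_snd (c_snd c_id)))
          (c_snd (c_snd (c_snd c_id))))
        (.u1 (.var 1)) (.var 2) (.u2 (.var 1)) (.var 0)))))

/-- `va V i * |vY V i k| ≤ vb V i * |blk Z k|` -/
def fvD (V : ℕ) (i k : Tm) (z : ℕ) : Fm :=
  fLet V (.pair i (.pair (.const 0) k)) (fLet V (.pair i.up (.pair (.const 2) (.const 0)))
    (fLet z k.up.up (n4 (fun a s b t => a * (dF s).card ≤ b * (dF t).card)
        (d_card (c_fst c_id) (c_fst (c_snd c_id)) (c_fst (c_snd (c_snd c_id)))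
          (c_snd (c_snd (c_snd c_id))))
        (.u1 (.var 1)) (.var 2) (.u2 (.var 1)) (.var 0))))

section
variable {S : Str} {v : List ℕ} {w : List S.R} {u : List S.C}

theorem eval_fvY (x : Tm) (V : ℕ) (i k : Tm) :
    (fvY x V i k).eval S v w u ↔ x.f v ∈ vY S (w.getD V S.r0) (i.f v) (k.f v) := by
  rw [fvY, eval_fLet, eval_fMem]; rfl

theorem eval_fvN (V : ℕ) (i k : Tm) :
    (fvN V i k).eval S v w u ↔ (vY S (w.getD V S.r0) (i.f v) (k.f v)).Nonempty := by
  rw [fvN, eval_exN]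
  refine exists_congr fun x => ?_
  rw [eval_fvY]; rfl

theorem eval_fvJ (V : ℕ) (i E : Tm) :
    (fvJ V i E).eval S v w u ↔ vJ S (w.getD V S.r0) (i.f v) (E.f v) = 1 := by
  rw [fvJ, eval_fApp]; rfl

theorem eval_fvC (V : ℕ) (i k s : Tm) :
    (fvC V i k s).eval S v w u ↔
      va S (w.getD V S.r0) (i.f v) * (vY S (w.getD V S.r0) (i.f v) (k.f v)).card ≤
      vb S (w.getD V S.r0) (i.f v) *
        (dF (s.f v) ∩ vY S (w.getD V S.r0) (i.f v) (k.f v)).card := by
  rw [fvC, eval_fLet, eval_fLet, eval_exN]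
  simp only [eval_and, eval_n3, eval_n4]
  constructor
  · rintro ⟨r, h1, h2⟩
    have h1' : dF r = dF (s.f v) ∩ vY S (w.getD V S.r0) (i.f v) (k.f v) := h1
    rw [← h1']; exact h2
  · intro h
    obtain ⟨r, hr⟩ := dF_surj (dF (s.f v) ∩ vY S (w.getD V S.r0) (i.f v) (k.f v))
    refine ⟨r, hr, ?_⟩
    rw [← hr] at h; exact h

theorem eval_fvD (V : ℕ) (i k : Tm) (z : ℕ) :
    (fvD V i k z).eval S v w u ↔
      va S (w.getD V S.r0) (i.f v) * (vY S (w.getD V S.r0) (i.f v) (k.f v)).card ≤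
      vb S (w.getD V S.r0) (i.f v) * (blk S (w.getD z S.r0) (k.f v)).card := by
  rw [fvD, eval_fLet, eval_fLet, eval_fLet, eval_n4]; rfl

end

theorem fmCpt : P_fmCpt := by
  -- V κ = 1 0; m N0 = 1 0
  refine ⟨.allR (.allR (.allN (.allN (.imp (fInf 0)
    (.imp (.allN (.imp (fLtN (.var 0) (.var 2)) (fLet 1 (.pair (.var 0) (.pair (.const 2) (.const 0)))
      (fLtN (.const 0) (.u1 (.var 0))))))
    (.imp (.allN (.exN (.and
        -- s N N0 m = 0 1 2 3
        (.allN (.imp (fLtN (.var 0) (.var 4)) (.allN (.imp (fSubF (.var 0) (.var 2))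
          -- E i s N N0 m = 0 1 2 3 4 5
          (.imp (.allN (.imp (fMem (.var 0) (.var 1)) (.exN (.and (fLtN (.var 0) (.var 5))
            (fvY (.var 1) 1 (.var 3) (.var 0))))))
          (fvJ 1 (.var 1) (.var 0)))))))
        (.allN (.imp (fLtN (.var 0) (.var 2)) (.imp (fLeN (.var 3) (.var 0)) (.imp (fKK (.var 0) 0)
          -- k s N N0 m
          (.exN (.and (fLtN (.var 0) (.var 5)) (.and (fvN 1 (.var 0) (.var 1))
            (fvC 1 (.var 0) (.var 1) (.var 2))))))))))))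
    (.exN (.and (fLtN (.var 0) (.var 2)) (.exR (.and
      -- Z κ V = 0 1 2, i N0 m = 0 1 2
      (.allN (.allN (.imp (fBlk (.var 0) 0 (.var 1)) (fvY (.var 0) 2 (.var 2) (.var 1)))))
      (.and (fInf 0) (.and (.allN (.imp (fKK (.var 0) 0) (fKK (.var 0) 1)))
      (.and (.allN (.imp (fKK (.var 0) 0) (fvD 2 (.var 1) (.var 0) 0)))
      (.allN (.imp (.allN (.imp (fMem (.var 0) (.var 1)) (fInU (.var 0) 0)))
        (fvJ 2 (.var 1) (.var 0))))))))))))))))), fun S => ?_⟩
  simp only [eval_allN, eval_allR, eval_imp, eval_fLtN, eval_exN, eval_and, eval_fLeN,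
    eval_fKK, eval_exR, eval_fInf, eval_fLet, eval_fSubF, eval_fMem, eval_fvY, eval_fvJ, eval_fvN,
    eval_fvC, eval_fBlk, eval_fvD, eval_fInU]
  rfl

/-! ### SJ -/

def fJ1 (c : ℕ) (n F : Tm) (y : ℕ) (a b : Tm) (κ j : ℕ) : Fm :=
  .allN (.imp (.allN (.imp (fMem (.var 0) (.var 1)) (fInU (.var 0) y)))
    (.imp (.neg (fApp j (.var 0) (.const 1)))
    -- m k0 = 1 0, E = 2 ; V W = 1 0
    (.exN (.exN (.exR (.exR (.and
      (.allN (.imp (fLtN (.var 0) (.var 2)) (.exR (.exN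
        -- F' j k0 m E = 0 1 2 3 4 ; Y' W V = 0 1 2
        (.and (.allN (fLet 2 (.pair (.var 2) (.var 0)) (fApp 0 (.var 1) (.var 0))))
        (.and (fSubF F.up.up.up.up.up (.var 0))
        (.and (.allN (.imp (fMem (.var 0) (.var 1)) (.or (fMem (.var 0) F.up.up.up.up.up.up)
          (fMem (.var 0) (.var 5)))))
        (.and (fMemC c (.pair n.up.up.up.up.up (.var 0)) 0)
        (.and (fLeR 0 (y + 3))
        (.allN (.imp (fLeN (.var 3) (.var 0)) (.imp (fKK (.var 0) (κ + 3))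
          (fKK (.var 0) 0)))))))))))))
      -- k k0 m E = 0 1 2 3 ; W V = 0 1
      (.allN (.imp (fLeN (.var 1) (.var 0)) (.imp (fKK (.var 0) (κ + 2))
        (.and (.allN (.imp (fBlk (.var 0) 0 (.var 1)) (fBlk (.var 0) (y + 2) (.var 1))))
        (.and (.allN (.imp (fBlk (.var 0) 0 (.var 1)) (.exN (.and (fLtN (.var 0) (.var 4))
          (fLet 1 (.pair (.var 0) (.var 2)) (fMem (.var 2) (.var 0)))))))
        (fCard a.up.up.up.up (y + 2) b.up.up.up.up 0 (.var 0))))))))))))))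

theorem eval_fJ1 {S : Str} {v : List ℕ} {w : List S.R} {u : List S.C} (c : ℕ) (n F : Tm) (y : ℕ)
    (a b : Tm) (κ j : ℕ) : (fJ1 c n F y a b κ j).eval S v w u ↔
      J1 S (u.getD c S.c0) (n.f v) (F.f v) (w.getD y S.r0) (a.f v) (b.f v) (w.getD κ S.r0)
        (w.getD j S.r0) := by
  rw [fJ1, eval_allN]
  refine forall_congr' fun E => ?_
  simp only [eval_allN, eval_imp, eval_fMem, eval_fInU, eval_neg, eval_fApp, eval_exN, eval_exR,
    eval_and, eval_fLtN, eval_fLet, eval_fSubF, eval_or, eval_fMemC, eval_fLeR, eval_fLeN,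
    eval_fKK, eval_fBlk, eval_fCard]
  refine imp_congr Iff.rfl (imp_congr Iff.rfl (exists_congr fun m => exists_congr fun k0 =>
    exists_congr fun V => exists_congr fun W => ?_))
  refine and_congr (forall_congr' fun jj => imp_congr Iff.rfl (exists_congr fun Y' =>
    exists_congr fun F' => ?_)) Iff.rfl
  refine and_congr Iff.rfl (and_congr Iff.rfl (and_congr ?_ Iff.rfl))
  rw [Finset.subset_iff]
  refine forall_congr' fun x => imp_congr Iff.rfl ?_
  rw [Finset.mem_union]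
  rfl

def fJ2 (c : ℕ) (n F : Tm) (y : ℕ) (a b : Tm) (κ j : ℕ) : Fm :=
  .allR (.imp (fSub 0 (y + 1)) (.imp (.allN (.exN (.and (fLeN (.var 1) (.var 0))
      (.and (fKK (.var 0) 0) (fKK (.var 0) (κ + 1))))))
    (.imp (fBig (.mul (.const 2) a) b 0 (y + 1))
    (.imp (.allN (.imp (.allN (.imp (fMem (.var 0) (.var 1)) (fInU (.var 0) 0)))
      (fApp (j + 1) (.var 0) (.const 1))))
    (.exR (.and (fSub 0 1) (.and (.allN (.imp (fKK (.var 0) 0) (fKK (.var 0) (κ + 2))))
      (.and (.exN (.allN (.imp (fLeN (.var 1) (.var 0)) (.imp (fKK (.var 0) 1)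
        (.imp (fKK (.var 0) (κ + 2)) (fKK (.var 0) 0))))))
      (.and (fBig a b 0 (y + 2)) (fPerp c n F 0))))))))))

theorem eval_fJ2 {S : Str} {v : List ℕ} {w : List S.R} {u : List S.C} (c : ℕ) (n F : Tm) (y : ℕ)
    (a b : Tm) (κ j : ℕ) : (fJ2 c n F y a b κ j).eval S v w u ↔
      J2 S (u.getD c S.c0) (n.f v) (F.f v) (w.getD y S.r0) (a.f v) (b.f v) (w.getD κ S.r0)
        (w.getD j S.r0) := by
  rw [fJ2, eval_allR]
  refine forall_congr' fun Z => ?_
  simp only [eval_allN, eval_imp, eval_fMem, eval_fInU, eval_fApp, eval_exN, eval_exR,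
    eval_and, eval_fLeN, eval_fKK, eval_fSub, eval_fBig, eval_fPerp, inf_iff]
  rfl

theorem fmJ : P_fmJ := by
  refine ⟨.allC (.allN (.allN (.allR (.allR (.allN (.allN (.imp (fLtN (.const 0) (.var 1))
    (.imp (fOpn 0 (.var 3))
    (.imp (.allN (.exN (.and (fLeN (.var 1) (.var 0)) (.and (fKK (.var 0) 0) (fKK (.var 0) 1)))))
    (.exR (.exR (.and (fInf 1) (.and (.allN (.imp (fKK (.var 0) 1)
      (.and (fKK (.var 0) 2) (fKK (.var 0) 3))))
      (.and (fJ1 0 (.var 3) (.var 2) 3 (.var 1) (.var 0) 1 0)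
        (fJ2 0 (.var 3) (.var 2) 3 (.var 1) (.var 0) 1 0))))))))))))))), fun S => ?_⟩
  simp only [eval_allC, eval_allN, eval_allR, eval_imp, eval_fLtN, eval_exN, eval_and, eval_fLeN,
    eval_fKK, eval_exR, eval_fInf, eval_fJ1, eval_fJ2, eval_fOpn]
  simp only [SJ, inf_iff]
  rfl

/-! ### SSim -/

/-- the code of `(x, chi F (|t|+1), s1 t ++ [a])` -/
def gA (x t F a : ℕ) : ℕ :=
  encode (x, chi F (s1 (ofNat (List ℕ) t) ++ [a]).length, s1 (ofNat (List ℕ) t) ++ [a])
def gB (x t F a : ℕ) : ℕ :=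
  encode (x, chi F (s2 (ofNat (List ℕ) t) ++ [a]).length, s2 (ofNat (List ℕ) t) ++ [a])
/-- the code of `t ++ [pair a b]` -/
def gC (t a b : ℕ) : ℕ := encode (ofNat (List ℕ) t ++ [Nat.pair a b])

theorem c_chi {α : Type} [Primcodable α] {F l : α → ℕ} (hF : Computable F) (hl : Computable l) :
    Computable fun a => chi (F a) (l a) := by
  refine c_tab hl ?_
  refine c_ite (P := fun p : α × ℕ => p.2 ∈ dF (F p.1)) ?_ (c_const 1) (c_const 0)
  have h : ComputablePred fun p : α × ℕ => p.2 ∈ (ofNat (List ℕ) (F p.1)) :=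
    p_mem Computable.snd ((Computable.ofNat (List ℕ)).comp (hF.comp Computable.fst))
  exact h.of_eq fun p => by simp [dF]

theorem c_app1 {α : Type} [Primcodable α] {f : α → List ℕ} {g : α → ℕ} (hf : Computable f)
    (hg : Computable g) : Computable fun a => f a ++ [g a] :=
  Computable.list_concat.comp hf hg

theorem c_map {α : Type} [Primcodable α] {f : α → List ℕ} {g : ℕ → ℕ} (hf : Computable f)
    (hg : Computable g) : Computable fun a => (f a).map g := by
  have h : Computable fun a => (List.range (f a).length).map fun i => g (gt (f a) i) :=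
    c_tab (Computable.list_length.comp hf) (hg.comp (c_gt (hf.comp Computable.fst) Computable.snd))
  refine h.of_eq fun a => ?_
  refine List.ext_getElem (by simp) fun i h1 h2 => ?_
  simp only [List.length_map, List.length_range] at h1 h2
  simp [gt, h2]

theorem c_gA : Computable fun p : ℕ × ℕ × ℕ × ℕ => gA p.1 p.2.1 p.2.2.1 p.2.2.2 := by
  have ht : Computable fun p : ℕ × ℕ × ℕ × ℕ => s1 (ofNat (List ℕ) p.2.1) ++ [p.2.2.2] :=
    c_app1 (c_map ((Computable.ofNat (List ℕ)).comp (c_fst (c_snd c_id))) (c_up1 c_id))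
      (c_snd (c_snd (c_snd c_id)))
  exact Computable.encode.comp (c_pair (c_fst c_id) (c_pair (c_chi (c_fst (c_snd (c_snd c_id)))
    (Computable.list_length.comp ht)) ht))

theorem c_gB : Computable fun p : ℕ × ℕ × ℕ × ℕ => gB p.1 p.2.1 p.2.2.1 p.2.2.2 := by
  have ht : Computable fun p : ℕ × ℕ × ℕ × ℕ => s2 (ofNat (List ℕ) p.2.1) ++ [p.2.2.2] :=
    c_app1 (c_map ((Computable.ofNat (List ℕ)).comp (c_fst (c_snd c_id))) (c_up2 c_id))
      (c_snd (c_snd (c_snd c_id)))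
  exact Computable.encode.comp (c_pair (c_fst c_id) (c_pair (c_chi (c_fst (c_snd (c_snd c_id)))
    (Computable.list_length.comp ht)) ht))

theorem c_gC : Computable fun p : ℕ × ℕ × ℕ => gC p.1 p.2.1 p.2.2 :=
  Computable.encode.comp (c_app1 ((Computable.ofNat (List ℕ)).comp (c_fst c_id))
    (c_npair (c_fst (c_snd c_id)) (c_snd (c_snd c_id))))

theorem c_len1 : Computable fun t : ℕ => (ofNat (List ℕ) t).length + 1 :=
  c_succ (Computable.list_length.comp (Computable.ofNat (List ℕ)))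

namespace Tm
def tA (x t F a : Tm) : Tm :=
  ⟨fun v => gA (x.f v) (t.f v) (F.f v) (a.f v),
    c_gA.comp (c_pair x.h (c_pair t.h (c_pair F.h a.h)))⟩
def tB (x t F a : Tm) : Tm :=
  ⟨fun v => gB (x.f v) (t.f v) (F.f v) (a.f v),
    c_gB.comp (c_pair x.h (c_pair t.h (c_pair F.h a.h)))⟩
def tC (t a b : Tm) : Tm :=
  ⟨fun v => gC (t.f v) (a.f v) (b.f v), c_gC.comp (c_pair t.h (c_pair a.h b.h))⟩
def tL (t : Tm) : Tm := ⟨fun v => (ofNat (List ℕ) (t.f v)).length + 1, c_len1.comp t.h⟩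
end Tm

/-- the sentence `SSim` with codes of lists -/
def SSim' (S : Str) : Prop := ∀ ρ ρ' : S.R, ∃ U O Q : S.C,
  (∀ n, Opn S U n ∧ Opn S O n ∧ Opn S Q n) ∧
  ∀ (x t F : ℕ) (Y : S.R), Grow S Y → (KK S Y).Infinite →
    (S.mem U (Nat.pair (Nat.pair x t) F) Y → ∀ a, DB S O (Nat.pair x (Nat.pair t a)) F Y) ∧
    (Perp S U (Nat.pair x t) F Y → DB S Q (Nat.pair x t) F Y) ∧
    (∀ a, S.mem O (Nat.pair (Nat.pair x (Nat.pair t a)) F) Y →
      Dec S Y ((ofNat (List ℕ) t).length + 1) ∧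
      (¬ S.app ρ' (gA x t F a) = 0 ∨ ∃ b, S.app ρ (gB x t F b) = 0 ∧
        S.mem U (Nat.pair (Nat.pair x (gC t a b)) F) Y)) ∧
    (S.mem Q (Nat.pair (Nat.pair x t) F) Y →
      Dec S Y ((ofNat (List ℕ) t).length + 1) ∧ ∃ a, S.app ρ' (gA x t F a) = 0 ∧
        ∀ b, S.app ρ (gB x t F b) = 0 → Perp S U (Nat.pair x (gC t a b)) F Y)

theorem sSim_iff (S : Str) : SSim' S ↔ SSim S := by
  unfold SSim' SSim
  refine forall_congr' fun ρ => forall_congr' fun ρ' => exists_congr fun U => exists_congr fun O =>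
    exists_congr fun Q => and_congr Iff.rfl ?_
  constructor
  · intro h x t F Y h1 h2
    have := h x (encode t) F Y h1 h2
    simp only [gA, gB, gC, ofNat_encode] at this
    exact this
  · intro h x t F Y h1 h2
    have := h x (ofNat (List ℕ) t) F Y h1 h2
    simp only [encode_ofNat] at this
    exact this

theorem fmSim : P_fmSim := by
  -- reals ρ ρ' = 1 0 ; classes U O Q = 2 1 0
  refine ⟨.allR (.allR (.exC (.exC (.exC (.and
    (.allN (.and (fOpn 2 (.var 0)) (.and (fOpn 1 (.var 0)) (fOpn 0 (.var 0)))))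
    -- x t F = 2 1 0 ; Y ρ' ρ = 0 1 2
    (.allN (.allN (.allN (.allR (.imp (fGrow 0) (.imp (fInf 0)
      (.and (.imp (fMemC 2 (.pair (.pair (.var 2) (.var 1)) (.var 0)) 0)
        (.allN (fDB 1 (.pair (.var 3) (.pair (.var 2) (.var 0))) (.var 1) 0)))
      (.and (.imp (fPerp 2 (.pair (.var 2) (.var 1)) (.var 0) 0)
        (fDB 0 (.pair (.var 2) (.var 1)) (.var 0) 0))
      (.and (.allN (.imp (fMemC 1 (.pair (.pair (.var 3) (.pair (.var 2) (.var 0))) (.var 1)) 0)
        (.and (fDec 0 (.tL (.var 2)))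
        (.or (.neg (fApp 1 (.tA (.var 3) (.var 2) (.var 1) (.var 0)) (.const 0)))
          -- b a F t x = 0 1 2 3 4
          (.exN (.and (fApp 2 (.tB (.var 4) (.var 3) (.var 2) (.var 0)) (.const 0))
            (fMemC 2 (.pair (.pair (.var 4) (.tC (.var 3) (.var 1) (.var 0))) (.var 2)) 0)))))))
      (.imp (fMemC 0 (.pair (.pair (.var 2) (.var 1)) (.var 0)) 0)
        (.and (fDec 0 (.tL (.var 1)))
        (.exN (.and (fApp 1 (.tA (.var 3) (.var 2) (.var 1) (.var 0)) (.const 0))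
          (.allN (.imp (fApp 2 (.tB (.var 4) (.var 3) (.var 2) (.var 0)) (.const 0))
            (fPerp 2 (.pair (.var 4) (.tC (.var 3) (.var 1) (.var 0))) (.var 2) 0))))))))))))))))))))),
    fun S => ?_⟩
  rw [← sSim_iff]
  simp only [eval_allC, eval_allN, eval_allR, eval_imp, eval_exN, eval_and, eval_exC, eval_or,
    eval_exR, eval_fInf, eval_fOpn, eval_fGrow, eval_fMemC, eval_fDB, eval_fPerp, eval_fDec,
    eval_neg, eval_fApp]
  rfl

end Pool.Agent.W562.HY
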