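import Mathlib
import Pool.Agent.W562.HY.FmB
import Pool.Agent.W562.HY.Ext

/-!
Project HY: final assembly.
-/

set_option autoImplicit false

namespace Pool.Agent.W562.HY

open Encodable Denumerable Nat.Partrec
open Pool.Agent.Helper941.Hyp Pool.Agent.Helper941.IsoProb Pool.Agent.Helper941.Zeta

/-- all sentences -/
def All (S : Str) : Prop :=
  SDiff S ∧ SPerp S ∧ SComp S ∧ SJoin S ∧ SCpt S ∧ SJ S ∧ SX S ∧ SSim S

theorem isFm_and {P Q : Str → Prop} (hP : IsFm P) (hQ : IsFm Q) : IsFm fun S => P S ∧ Q S := by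
  obtain ⟨φ, h1⟩ := hP
  obtain ⟨ψ, h2⟩ := hQ
  exact ⟨.and φ ψ, fun S => by rw [Fm.eval_and, h1, h2]⟩

theorem isFm_all : IsFm All :=
  isFm_and fmDiff (isFm_and fmPerp (isFm_and fmComp (isFm_and fmJoin (isFm_and fmCpt
    (isFm_and fmJ (isFm_and fmX fmSim))))))

theorem all_VV : All VV :=
  ⟨Pool.Agent.W351.HY.vDiff, Pool.Agent.W351.HY.vPerp, Pool.Agent.W351.HY.vComp,
    Pool.Agent.W351.HY.vJoin, Pool.Agent.W636.HY.VCpt.main,
    Pool.Agent.W382.HY.main Pool.Agent.W64.HY.diag Pool.Agent.W64.HY.exh,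
    Pool.Agent.W970.HY.VX.main Pool.Agent.W64.HY.diag, Pool.Agent.W382.HY.Sim.main⟩

theorem model (X : Set ℕ) (hX : ¬ Delta11 (fun n => n ∈ X)) :
    ∃ z, All (str z) ∧ ∀ j, ¬ ∀ n, (str z).app j n = 1 ↔ n ∈ X := by
  obtain ⟨φ, hφ⟩ := isFm_all
  obtain ⟨z, h1, h2⟩ := Pool.Agent.W928.HY.Basis.main Pool.Agent.W636.HY.main φ
    (Pool.Agent.W928.HY.LS.main VV φ ((hφ VV).2 all_VV)) X hX
  exact ⟨z, (hφ _).1 h1, h2⟩

theorem comp_real {S : Str} (h : SComp S) {g : ℕ → ℕ} (hg : Computable g) :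
    ∃ ρ : S.R, ∀ n, S.app ρ n = g n := by
  obtain ⟨c, hc⟩ := Code.exists_code.1 (Partrec.nat_iff.1 hg.partrec)
  obtain ⟨ρ, hρ⟩ := h (encode c) (fun n => ⟨g n, by rw [ofNat_encode, hc]; simp⟩)
  refine ⟨ρ, fun n => ?_⟩
  have := hρ n
  rw [ofNat_encode, hc] at this
  simpa using this

/-! ### blocks -/

theorem c_fac : Computable fun k : ℕ => k.factorial := by
  have h : Computable fun k : ℕ => Nat.rec (motive := fun _ => ℕ) 1
      (fun n r => (n + 1) * r) k := by
    refine Computable.nat_rec (f := fun k : ℕ => k) (g := fun _ => 1)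
      (h := fun _ (p : ℕ × ℕ) => (p.1 + 1) * p.2) Computable.id (c_const 1) ?_
    exact c_mul (c_succ (c_fst Computable.snd)) (c_snd Computable.snd)
  refine h.of_eq fun k => ?_
  induction k with
  | zero => rfl
  | succ n ih => simp only [Nat.factorial_succ]; rw [← ih]

def gBlock (k : ℕ) : ℕ :=
  encode ((List.range ((k + 1).factorial - k.factorial)).map fun i => k.factorial + i)

theorem c_gBlock : Computable gBlock :=
  Computable.encode.comp (c_tab (c_sub (c_fac.comp (c_succ c_id)) c_fac)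
    (c_add (c_fac.comp Computable.fst) Computable.snd))

theorem dF_gBlock (k : ℕ) : dF (gBlock k) = Finset.Ico k.factorial (k + 1).factorial := by
  ext n
  simp only [dF, gBlock, ofNat_encode, List.mem_toFinset, List.mem_map, List.mem_range,
    Finset.mem_Ico]
  constructor
  · rintro ⟨i, h1, h2⟩; omega
  · rintro ⟨h1, h2⟩
    exact ⟨n - k.factorial, by omega, by omega⟩

theorem density (A : Set ℕ) (δ : ℝ) (hδ : 0 < δ)
    (h : ∀ᶠ n : ℕ in Filter.atTop, δ * (n : ℝ) ≤ ((A ∩ Set.Iio n).ncard : ℝ)) :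
    ∃ k0 : ℕ, ∀ k, k0 ≤ k → (Finset.Ico k.factorial (k + 1).factorial).Nonempty ∧
      δ / 2 * ((Finset.Ico k.factorial (k + 1).factorial).card : ℝ) ≤
        cA A (Finset.Ico k.factorial (k + 1).factorial) := by
  rw [Filter.eventually_atTop] at h
  obtain ⟨n0, hn0⟩ := h
  obtain ⟨k1, hk1⟩ := exists_nat_gt (2 / δ)
  refine ⟨max (max n0 k1) 1, fun k hk => ?_⟩
  have hk2 : 1 ≤ k := le_trans (le_max_right _ _) hk
  have hk3 : n0 ≤ k := le_trans ((le_max_left _ _).trans (le_max_left _ _)) hk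
  have hk4 : k1 ≤ k := le_trans ((le_max_right _ _).trans (le_max_left _ _)) hk
  have hpos : 0 < k.factorial := Nat.factorial_pos k
  have hfs : (k + 1).factorial = (k + 1) * k.factorial := Nat.factorial_succ k
  have hlt : k.factorial < (k + 1).factorial := by rw [hfs]; nlinarith
  refine ⟨Finset.nonempty_Ico.2 hlt, ?_⟩
  have h1 := hn0 ((k + 1).factorial) (le_trans (hk3.trans (Nat.self_le_factorial k)) hlt.le)
  have h2 : ((A ∩ Set.Iio (k + 1).factorial).ncard) ≤ k.factorial +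
      cA A (Finset.Ico k.factorial (k + 1).factorial) := by
    have hss : A ∩ Set.Iio (k + 1).factorial ⊆ Set.Iio k.factorial ∪
        (((Finset.Ico k.factorial (k + 1).factorial : Finset ℕ) : Set ℕ) ∩ A) := by
      rintro n ⟨ha, hn⟩
      by_cases hc : n < k.factorial
      · exact Or.inl hc
      · exact Or.inr ⟨by simp only [Finset.coe_Ico, Set.mem_Ico]; exact ⟨not_lt.1 hc, hn⟩, ha⟩
    have hfin : (Set.Iio k.factorial ∪
        (((Finset.Ico k.factorial (k + 1).factorial : Finset ℕ) : Set ℕ) ∩ A)).Finite :=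
      (Set.finite_Iio _).union ((Finset.finite_toSet _).inter_of_left _)
    refine (Set.ncard_le_ncard hss hfin).trans ((Set.ncard_union_le _ _).trans ?_)
    have : (Set.Iio k.factorial).ncard = k.factorial := by
      rw [Set.ncard_eq_toFinset_card']; simp
    rw [this]; rfl
  have h2' : ((A ∩ Set.Iio (k + 1).factorial).ncard : ℝ) ≤ (k.factorial : ℝ) +
      (cA A (Finset.Ico k.factorial (k + 1).factorial) : ℝ) := by exact_mod_cast h2
  have h3 : ((Finset.Ico k.factorial (k + 1).factorial).card : ℝ) = k * k.factorial := by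
    rw [Nat.card_Ico, hfs]
    have : (k + 1) * k.factorial - k.factorial = k * k.factorial := by
      rw [add_mul, one_mul, Nat.add_sub_cancel]
    rw [this]; push_cast; ring
  have h4 : (((k + 1).factorial : ℕ) : ℝ) = (k + 1) * k.factorial := by
    rw [hfs]; push_cast; ring
  rw [h3]
  rw [h4] at h1
  have hF : (0 : ℝ) < k.factorial := by exact_mod_cast hpos
  have h5 : 2 / δ < k := lt_of_lt_of_le hk1 (by exact_mod_cast hk4)
  have h6 : 2 < δ * k := by
    rw [div_lt_iff₀ hδ] at h5; linarith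
  have h7 : δ / 2 * (k * k.factorial) ≤ δ * ((k + 1) * k.factorial) - k.factorial := by
    have : 0 ≤ (δ * k / 2 + δ - 1) * k.factorial := by
      apply mul_nonneg _ hF.le
      linarith
    nlinarith
  linarith

/-! ### trees -/

open Classical in
noncomputable def gTree (R : ℕ → List ℕ → List ℕ → Prop) (c : ℕ) : ℕ :=
  if ∀ j < (ofNat (ℕ × List ℕ × List ℕ) c).2.2.length + 1,
    ¬ R (ofNat (ℕ × List ℕ × List ℕ) c).1 (tk (ofNat (ℕ × List ℕ × List ℕ) c).2.1 j)
      (tk (ofNat (ℕ × List ℕ × List ℕ) c).2.2 j) then 0 else 1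

theorem c_gTree {R : ℕ → List ℕ → List ℕ → Prop}
    (hR : ComputablePred (fun p : ℕ × List ℕ × List ℕ => R p.1 p.2.1 p.2.2)) :
    Computable (gTree R) := by
  have hd : Computable fun c : ℕ => ofNat (ℕ × List ℕ × List ℕ) c :=
    Computable.ofNat (ℕ × List ℕ × List ℕ)
  have h1 : ComputablePred fun p : ℕ × ℕ => R (ofNat (ℕ × List ℕ × List ℕ) p.1).1
      (tk (ofNat (ℕ × List ℕ × List ℕ) p.1).2.1 p.2)
      (tk (ofNat (ℕ × List ℕ × List ℕ) p.1).2.2 p.2) :=
    computablePred_comp hR (c_pair (c_fst (hd.comp Computable.fst))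
      (c_pair (c_tk (c_fst (c_snd (hd.comp Computable.fst))) Computable.snd)
        (c_tk (c_snd (c_snd (hd.comp Computable.fst))) Computable.snd)))
  have h2 : ComputablePred fun c : ℕ =>
      ∀ j < (ofNat (ℕ × List ℕ × List ℕ) c).2.2.length + 1,
      ¬ R (ofNat (ℕ × List ℕ × List ℕ) c).1 (tk (ofNat (ℕ × List ℕ × List ℕ) c).2.1 j)
        (tk (ofNat (ℕ × List ℕ × List ℕ) c).2.2 j) :=
    p_ball (c_succ (Computable.list_length.comp (c_snd (c_snd hd)))) (p_not h1)
  classical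
  have h3 := c_ite h2 (c_const (α := ℕ) 0) (c_const (α := ℕ) 1)
  refine h3.of_eq fun c => ?_
  unfold gTree
  congr

theorem okB_iff {S : Str} {ρ : S.R} {R : ℕ → List ℕ → List ℕ → Prop}
    (hρ : ∀ n, S.app ρ n = gTree R n) (x : ℕ) (B : Set ℕ) (f : ℕ → ℕ) (m : ℕ) :
    okB S ρ x B ((List.range m).map f) ↔
      ∀ j ≤ m, ¬ R x ((List.range j).map (B.indicator fun _ => (1 : ℕ))) ((List.range j).map f) := by
  unfold okB
  rw [hρ, gTree]
  have he : ∀ q : ℕ × List ℕ × List ℕ, ofNat (ℕ × List ℕ × List ℕ) (encode q) = q :=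
    fun q => ofNat_encode q
  rw [he]
  have hl : ((List.range m).map f).length = m := by simp
  constructor
  · intro h j hj
    split_ifs at h with h1
    · have := h1 j (by simp only [hl]; omega)
      simp only [hl] at this
      rwa [tk_range _ hj, tk_range _ hj] at this
  · intro h
    rw [if_pos]
    intro j hj
    simp only [hl] at hj ⊢
    rw [tk_range _ (by omega), tk_range _ (by omega)]
    exact h j (by omega)

theorem final (P : Set ℕ → Set ℕ → Prop)
    (hP : ∀ Y B : Set ℕ, P Y B ↔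
        ∃ R : ℕ → List ℕ → List ℕ → Prop,
          ComputablePred (fun p : ℕ × List ℕ × List ℕ => R p.1 p.2.1 p.2.2) ∧
          ∀ n : ℕ, n ∈ Y ↔ ∀ f : ℕ → ℕ, ∃ m : ℕ,
            R n ((List.range m).map (B.indicator (fun _ => (1 : ℕ))))
              ((List.range m).map f)) (X A : Set ℕ) (hX : ¬ (P X ∅ ∧ P Xᶜ ∅))
    (hA : ∃ δ : ℝ, 0 < δ ∧ ∀ᶠ n : ℕ in Filter.atTop,
            δ * (n : ℝ) ≤ ((A ∩ Set.Iio n).ncard : ℝ)) :
    ∃ B : Set ℕ, B ⊆ A ∧ B.Infinite ∧ ¬ (P X B ∧ P Xᶜ B) := by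
  have hX' : ¬ Delta11 (fun n => n ∈ X) := by
    intro hD
    apply hX
    have key : ∀ Y : Set ℕ, Sigma11 (fun n => n ∉ Y) → P Y ∅ := by
      rintro Y ⟨R, hR, h⟩
      rw [hP]
      refine ⟨fun n _ l => ¬ R (n, l), ?_, fun n => ?_⟩
      · exact p_not (computablePred_comp hR (c_pair (c_fst c_id) (c_snd (c_snd c_id))))
      · have := h n
        constructor
        · intro hn f
          by_contra hc
          push Not at hc
          exact this.2 ⟨f, hc⟩ hn
        · intro hn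
          by_contra hc
          obtain ⟨f, hf⟩ := this.1 hc
          obtain ⟨m, hm⟩ := hn f
          exact hm (hf m)
    refine ⟨key X hD.2, key Xᶜ ?_⟩
    exact hD.1.of_iff fun n => by simp
  obtain ⟨z, ⟨h1, h2, h3, h4, h5, h6, h7, h8⟩, h9⟩ := model X hX'
  obtain ⟨δ, hδ, hden⟩ := hA
  obtain ⟨k0, hk0⟩ := density A δ hδ hden
  obtain ⟨Y0, hY0⟩ := comp_real h3 c_gBlock
  have hblk : ∀ k, blk (str z) Y0 k = Finset.Ico k.factorial (k + 1).factorial := by
    intro k
    unfold blk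
    rw [hY0, dF_gBlock]
  have hgrow : Grow (str z) Y0 := by
    intro k n hn
    rw [hblk, Finset.mem_Ico] at hn
    exact (Nat.self_le_factorial k).trans hn.1
  obtain ⟨B, hB1, hB2, hB3⟩ := ext (str z) (inferInstanceAs (Countable ℕ))
    (inferInstanceAs (Countable ℕ)) h1 h2 h4 h5 h6 h7 h8 X h9 A Y0 hgrow
    ⟨δ / 2, by positivity, k0, fun k hk => by rw [hblk]; exact hk0 k hk⟩
  refine ⟨B, hB1, hB2, ?_⟩
  rintro ⟨p1, p2⟩
  rw [hP] at p1 p2
  obtain ⟨R', hR', e'⟩ := p1
  obtain ⟨R, hR, e⟩ := p2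
  obtain ⟨ρ, hρ⟩ := comp_real h3 (c_gTree hR)
  obtain ⟨ρ', hρ'⟩ := comp_real h3 (c_gTree hR')
  refine hB3 ρ ρ' fun x => ⟨?_, ?_⟩
  · have ex := e x
    constructor
    · intro hx
      by_contra hc
      push Not at hc
      refine (ex.2 fun f => ?_) hx
      obtain ⟨m, hm, hf⟩ := hc f
      rw [okB_iff hρ] at hf
      push Not at hf
      obtain ⟨j, _, hj⟩ := hf
      exact ⟨j, hj⟩
    · rintro ⟨f, hf⟩
      by_contra hx
      obtain ⟨m, hm⟩ := ex.1 hx f
      have := hf (m + 1) (by omega)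
      rw [okB_iff hρ] at this
      exact this m (by omega) hm
  · have ex := e' x
    constructor
    · intro hx
      by_contra hc
      push Not at hc
      refine hx (ex.2 fun f => ?_)
      obtain ⟨m, hm, hf⟩ := hc f
      rw [okB_iff hρ'] at hf
      push Not at hf
      obtain ⟨j, _, hj⟩ := hf
      exact ⟨j, hj⟩
    · rintro ⟨f, hf⟩ hx
      obtain ⟨m, hm⟩ := ex.1 hx f
      have := hf (m + 1) (by omega)
      rw [okB_iff hρ'] at this
      exact this m (by omega) hm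

end Pool.Agent.W562.HY
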